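import Mathlib

set_option autoImplicit false

/-!
# Annihilators of odd forms in an exterior algebra: an antisymmetric form of odd size
-/

namespace Pool.Agent.Run7.h601.ExtForm

open Module

variable {K : Type*} [Field K] {n : ℕ}

/-- graded commutativity with a vector -/
theorem iota_mul (v : Fin n → K) {a : ℕ} {g : ExteriorAlgebra K (Fin n → K)}
    (hg : g ∈ ⋀[K]^a (Fin n → K)) :
    ExteriorAlgebra.ι K v * g = (-1 : K) ^ a • (g * ExteriorAlgebra.ι K v) := by
  induction hg using Submodule.pow_induction_on_left' with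
  | algebraMap r => rw [pow_zero, one_smul, Algebra.commutes]
  | add x y i hx hy ihx ihy => rw [mul_add, add_mul, smul_add, ihx, ihy]
  | mem_mul m hm i x hx ih =>
      obtain ⟨w, rfl⟩ := hm
      have h := ExteriorAlgebra.ι_add_mul_swap (R := K) v w
      have h' : ExteriorAlgebra.ι K v * ExteriorAlgebra.ι K w =
          - (ExteriorAlgebra.ι K w * ExteriorAlgebra.ι K v) := eq_neg_of_add_eq_zero_left h
      rw [← mul_assoc, h', neg_mul, mul_assoc, ih, mul_smul_comm, ← mul_assoc, pow_succ', mul_smul,
        neg_one_smul]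

/-- graded commutativity -/
theorem mul_comm_deg {a b : ℕ} {g h : ExteriorAlgebra K (Fin n → K)}
    (hg : g ∈ ⋀[K]^a (Fin n → K)) (hh : h ∈ ⋀[K]^b (Fin n → K)) :
    g * h = (-1 : K) ^ (a * b) • (h * g) := by
  induction hg using Submodule.pow_induction_on_left' with
  | algebraMap r => rw [zero_mul, pow_zero, one_smul, Algebra.commutes]
  | add x y i hx hy ihx ihy => rw [mul_add, add_mul, smul_add, ihx, ihy]
  | mem_mul m hm i x hx ih =>
      obtain ⟨w, rfl⟩ := hm
      rw [mul_assoc, ih, mul_smul_comm, ← mul_assoc, iota_mul w hh, smul_mul_assoc, mul_assoc,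
        smul_smul, ← pow_add, Nat.succ_mul]

/-- odd elements anticommute -/
theorem anti {a b : ℕ} (ha : Odd a) (hb : Odd b) {g h : ExteriorAlgebra K (Fin n → K)}
    (hg : g ∈ ⋀[K]^a (Fin n → K)) (hh : h ∈ ⋀[K]^b (Fin n → K)) :
    g * h = - (h * g) := by
  rw [mul_comm_deg hg hh, (ha.mul hb).neg_one_pow, neg_one_smul]

/-- three odd elements -/
theorem anti_three {a d : ℕ} (ha : Odd a) (hd : Odd d) {f g h : ExteriorAlgebra K (Fin n → K)}
    (hf : f ∈ ⋀[K]^d (Fin n → K))
    (hg : g ∈ ⋀[K]^a (Fin n → K)) (hh : h ∈ ⋀[K]^a (Fin n → K)) :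
    g * f * h = - (h * f * g) := by
  rw [anti ha hd hg hf, neg_mul, mul_assoc, anti ha ha hg hh, mul_neg, neg_neg, ← mul_assoc,
    anti hd ha hf hh, neg_mul]

/-- the monomial basis of the exterior algebra of `K ^ n`, indexed by the subsets of `Fin n` -/
noncomputable def mono (K : Type*) [Field K] (n : ℕ) :
    Basis (Finset (Fin n)) K (ExteriorAlgebra K (Fin n → K)) :=
  (Pi.basisFun K (Fin n)).ExteriorAlgebra

theorem mono_mem {r : ℕ} {S : Finset (Fin n)} (hS : S.card = r) :
    mono K n S ∈ ⋀[K]^r (Fin n → K) := by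
  have := ExteriorAlgebra.basis_eq_coe_basis (Pi.basisFun K (Fin n))
    (⟨S, hS⟩ : Set.powersetCard (Fin n) r)
  change (Pi.basisFun K (Fin n)).ExteriorAlgebra S ∈ _
  rw [show (S : Finset (Fin n)) = ((⟨S, hS⟩ : Set.powersetCard (Fin n) r) : Finset (Fin n)) from rfl,
    this]
  exact Submodule.coe_mem _

/-- elements of degree `r` are combinations of monomials of degree `r` -/
theorem deg_le_span (r : ℕ) :
    ⋀[K]^r (Fin n → K) ≤
      Submodule.span K (Set.range fun S : {S : Finset (Fin n) // S.card = r} => mono K n S) := by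
  intro x hx
  have h := ((Pi.basisFun K (Fin n)).exteriorPower r).sum_repr ⟨x, hx⟩
  have h2 : ((∑ i, (((Pi.basisFun K (Fin n)).exteriorPower r).repr ⟨x, hx⟩) i •
      ((Pi.basisFun K (Fin n)).exteriorPower r) i : ⋀[K]^r (Fin n → K)) :
        ExteriorAlgebra K (Fin n → K)) = x := congrArg (Subtype.val) h
  rw [← h2]
  simp only [AddSubmonoidClass.coe_finsetSum, SetLike.val_smul]
  refine Submodule.sum_mem _ fun s _ => Submodule.smul_mem _ _ (Submodule.subset_span ⟨⟨s.1, s.2⟩, ?_⟩)
  exact ExteriorAlgebra.basis_eq_coe_basis (Pi.basisFun K (Fin n)) s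

theorem repr_eq_zero {r : ℕ} {x : ExteriorAlgebra K (Fin n → K)} (hx : x ∈ ⋀[K]^r (Fin n → K))
    {S : Finset (Fin n)} (hS : S.card ≠ r) : (mono K n).repr x S = 0 := by
  have h := deg_le_span r hx
  have h2 : Submodule.span K (Set.range fun S : {S : Finset (Fin n) // S.card = r} => mono K n S) ≤
      LinearMap.ker ((mono K n).coord S) := by
    rw [Submodule.span_le]
    rintro _ ⟨T, rfl⟩
    simp only [SetLike.mem_coe, LinearMap.mem_ker, Basis.coord_apply, Basis.repr_self]
    rw [Finsupp.single_eq_of_ne]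
    rintro rfl
    exact hS T.2
  exact h2 h

/-- an element of degree `r` with vanishing coefficients at the sets of size `r` is zero -/
theorem eq_zero_of_repr {r : ℕ} {x : ExteriorAlgebra K (Fin n → K)} (hx : x ∈ ⋀[K]^r (Fin n → K))
    (h : ∀ S : Finset (Fin n), S.card = r → (mono K n).repr x S = 0) : x = 0 := by
  apply (mono K n).repr.injective
  ext S
  rw [map_zero, Finsupp.zero_apply]
  by_cases hS : S.card = r
  · exact h S hS
  · exact repr_eq_zero hx hS

theorem mono_mul_of_not_disjoint {S T : Finset (Fin n)} (h : ¬ Disjoint S T) :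
    mono K n S * mono K n T = 0 :=
  ExteriorAlgebra.basis_mul_of_not_disjoint (Pi.basisFun K (Fin n))
    (⟨S, rfl⟩ : Set.powersetCard (Fin n) S.card) (⟨T, rfl⟩ : Set.powersetCard (Fin n) T.card) h

theorem mono_mul_of_disjoint {S T : Finset (Fin n)} (h : Disjoint S T) :
    ∃ u : ℤ, u ≠ 0 ∧ (u = 1 ∨ u = -1) ∧ mono K n S * mono K n T = u • mono K n (S ∪ T) := by
  have := ExteriorAlgebra.basis_mul_of_disjoint (Pi.basisFun K (Fin n))
    (⟨S, rfl⟩ : Set.powersetCard (Fin n) S.card) (⟨T, rfl⟩ : Set.powersetCard (Fin n) T.card) h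
  refine ⟨((Set.powersetCard.permOfDisjoint (s := (⟨S, rfl⟩ : Set.powersetCard (Fin n) S.card))
    (t := (⟨T, rfl⟩ : Set.powersetCard (Fin n) T.card)) h).sign : ℤˣ), Units.ne_zero _,
    Int.isUnit_iff.1 (Units.isUnit _), ?_⟩
  rw [← Units.smul_def]
  have h2 : S ∪ T = ((Set.powersetCard.disjUnion (s := (⟨S, rfl⟩ : Set.powersetCard (Fin n) S.card))
    (t := (⟨T, rfl⟩ : Set.powersetCard (Fin n) T.card)) h : Set.powersetCard (Fin n) _) :
      Finset (Fin n)) := by
    rw [Set.powersetCard.coe_disjUnion, Finset.disjUnion_eq_union]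
  rw [h2]
  exact this

/-- the coefficient of the top monomial -/
theorem top_coeff {S T : Finset (Fin n)} (h : S.card + T.card = n) :
    (mono K n).repr (mono K n T * mono K n S) Finset.univ ≠ 0 ↔ T = Sᶜ := by
  classical
  constructor
  · intro h0
    have hd : Disjoint T S := by
      by_contra hd
      exact h0 (by rw [mono_mul_of_not_disjoint hd, map_zero, Finsupp.zero_apply])
    have h1 : T ⊆ Sᶜ := fun a ha => Finset.mem_compl.2 (Finset.disjoint_left.1 hd ha)
    refine Finset.eq_of_subset_of_card_le h1 ?_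
    rw [Finset.card_compl, Fintype.card_fin]
    omega
  · rintro rfl
    obtain ⟨u, -, hu, e⟩ := mono_mul_of_disjoint (K := K) (n := n)
      (S := Sᶜ) (T := S) (disjoint_compl_left)
    rw [e, map_zsmul, Finsupp.smul_apply, Finset.union_comm, Finset.union_compl, Basis.repr_self,
      Finsupp.single_eq_same]
    rcases hu with rfl | rfl <;> simp

/-- nondegeneracy: an element of degree `k` whose products with the monomials of the complementary
degree all have vanishing top coefficient is zero -/
theorem eq_zero_of_top {k r : ℕ} (hkr : k + r = n) {x : ExteriorAlgebra K (Fin n → K)}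
    (hx : x ∈ ⋀[K]^k (Fin n → K))
    (h : ∀ S : Finset (Fin n), S.card = r → (mono K n).repr (x * mono K n S) Finset.univ = 0) :
    x = 0 := by
  classical
  apply eq_zero_of_repr hx
  intro T hT
  have hS : (Tᶜ).card = r := by
    rw [Finset.card_compl, Fintype.card_fin]
    omega
  have h1 := h Tᶜ hS
  have h2 : x = ∑ U : Finset (Fin n), (mono K n).repr x U • mono K n U := ((mono K n).sum_repr x).symm
  rw [h2, Finset.sum_mul, map_sum, Finsupp.coe_finsetSum, Finset.sum_apply] at h1
  rw [Finset.sum_eq_single T] at h1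
  · rw [smul_mul_assoc, map_smul, Finsupp.smul_apply, smul_eq_mul, mul_eq_zero] at h1
    rcases h1 with h1 | h1
    · exact h1
    · exfalso
      refine (top_coeff (K := K) (S := Tᶜ) (T := T) ?_).2 (compl_compl T).symm h1
      omega
  · intro U _ hU
    rw [smul_mul_assoc, map_smul, Finsupp.smul_apply, smul_eq_mul]
    by_cases hc : U.card = k
    · have : ¬ ((mono K n).repr (mono K n U * mono K n Tᶜ) Finset.univ ≠ 0) := by
        rw [top_coeff (by omega), compl_compl]
        exact hU
      rw [not_not.1 this, mul_zero]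
    · rw [repr_eq_zero hx hc, zero_mul]
  · intro h
    exact absurd (Finset.mem_univ _) h

/-- The main point: if `n = d + 2 r` with `d`, `r` and the binomial coefficient odd, then every form
of degree `d` is annihilated by a nonzero form of degree `r`. -/
theorem exists_ann [NeZero (2 : K)] {d r : ℕ} (hn : n = d + 2 * r) (hd : Odd d) (hr : Odd r)
    (hodd : Odd (n.choose r)) {f : ExteriorAlgebra K (Fin n → K)} (hf : f ∈ ⋀[K]^d (Fin n → K)) :
    ∃ g : ExteriorAlgebra K (Fin n → K), g ∈ ⋀[K]^r (Fin n → K) ∧ g ≠ 0 ∧ g * f = 0 := by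
  classical
  let I := {S : Finset (Fin n) // S.card = r}
  have hI : Fintype.card I = n.choose r := by
    rw [Fintype.card_finset_len, Fintype.card_fin]
  let A : Matrix I I K := fun S T => (mono K n).repr (mono K n S.1 * f * mono K n T.1) Finset.univ
  have hA : A.transpose = - A := by
    ext S T
    rw [Matrix.transpose_apply, Matrix.neg_apply]
    simp only [A]
    rw [anti_three hr hd hf (mono_mem T.2) (mono_mem S.2), map_neg, Finsupp.neg_apply]
  have hdet : A.det = 0 := by
    have h := congrArg Matrix.det hA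
    rw [Matrix.det_transpose, Matrix.det_neg, hI, hodd.neg_one_pow, neg_one_mul] at h
    have h2 : (2 : K) * A.det = 0 := by linear_combination h
    rcases mul_eq_zero.1 h2 with h3 | h3
    · exact absurd h3 (NeZero.ne 2)
    · exact h3
  obtain ⟨v, hv, hvA⟩ := Matrix.exists_vecMul_eq_zero_iff.2 hdet
  refine ⟨∑ S : I, v S • mono K n S.1, Submodule.sum_mem _ fun S _ =>
    Submodule.smul_mem _ _ (mono_mem S.2), ?_, ?_⟩
  · intro h0
    apply hv
    funext S
    have h1 := congrArg (fun x => (mono K n).repr x S.1) h0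
    simp only [map_sum, map_smul, Basis.repr_self, Finsupp.smul_single, smul_eq_mul, mul_one,
      Finsupp.coe_finsetSum, Finset.sum_apply, map_zero, Finsupp.coe_zero, Pi.zero_apply] at h1
    rw [Finset.sum_eq_single S] at h1
    · simpa using h1
    · intro T _ hT
      rw [Finsupp.single_eq_of_ne]
      intro h
      exact hT (Subtype.ext h.symm)
    · intro h
      exact absurd (Finset.mem_univ _) h
  · have hmem : (∑ S : I, v S • mono K n S.1) * f ∈ ⋀[K]^(r + d) (Fin n → K) :=
      SetLike.GradedMul.mul_mem (Submodule.sum_mem _ fun S _ =>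
        Submodule.smul_mem _ _ (mono_mem S.2)) hf
    refine eq_zero_of_top (k := r + d) (r := r) (by omega) hmem ?_
    intro T hT
    have h1 := congrFun hvA ⟨T, hT⟩
    rw [Finset.sum_mul, Finset.sum_mul, map_sum, Finsupp.coe_finsetSum, Finset.sum_apply]
    simp only [smul_mul_assoc, map_smul, Finsupp.smul_apply]
    exact h1

end Pool.Agent.Run7.h601.ExtForm
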