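import Mathlib

/-!
A verified local search for `P₅`-free graphs carrying a `3`-colouring and a frozen `4`-colouring.
-/

set_option autoImplicit false

namespace Pool.Agent.Run7.h601.FiveFree

/-- A Boolean as a number. -/
def bt (b : Bool) : Nat := cond b 1 0

/-- A graph (Boolean adjacency) without induced path on five vertices, with a proper colouring `a`
and a proper colouring `c` which is frozen with respect to the colours `0,1,2,3`. -/
structure Ctx (V : Type) where
  A : V → V → Bool
  a : V → Nat
  c : V → Nat
  symm : ∀ x y, A x y = A y x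
  proper : ∀ x y, A x y = true → a x ≠ a y ∧ c x ≠ c y
  p5 : ∀ v1 v2 v3 v4 v5 : V, A v1 v2 = true → A v2 v3 = true → A v3 v4 = true → A v4 v5 = true →
    A v1 v3 = false → A v1 v4 = false → A v1 v5 = false → A v2 v4 = false → A v2 v5 = false →
    A v3 v5 = false → False
  frozen : ∀ v j, j < 4 → j ≠ c v → ∃ w, A v w = true ∧ c w = j

/-- The adjacency mask of `q` with respect to the list `l`; the head of `l` is bit `0`. -/
def ty {V : Type} (A : V → V → Bool) : List V → V → Nat
  | [], _ => 0
  | w :: l, q => 2 * ty A l q + bt (A w q)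

/-- The bit set of the codes of the sixty labelled five-vertex paths. -/
def pset : Nat := 40009918084242395683201398774147305182131676821374759127841331474287979350927945640962181198492212624281554016302614587768940351138505622511274439322348790163169071214873353297223742715977028707073077381762712934644664358334507744297341681664

/-- The code of a labelled graph on five vertices. -/
def code (q0 q1 q2 q3 e01 e02 e03 e12 e13 e23 : Bool) : Nat :=
  (bt q0 + 2 * bt q1 + 4 * bt q2 + 8 * bt q3) +
    16 * (bt e01 + 2 * bt e02 + 4 * bt e03 + 8 * bt e12 + 16 * bt e13 + 32 * bt e23)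

/-- The adjacency matrix of the labelled graph. -/
def matOf (q0 q1 q2 q3 e01 e02 e03 e12 e13 e23 : Bool) : Fin 5 → Fin 5 → Bool :=
  ![![false, e01, e02, e03, q0], ![e01, false, e12, e13, q1], ![e02, e12, false, e23, q2],
    ![e03, e13, e23, false, q3], ![q0, q1, q2, q3, false]]

/-- The orders of the five vertices, one for each path. -/
def ords : List (Fin 5 × Fin 5 × Fin 5 × Fin 5 × Fin 5) :=
  [(0, 1, 2, 3, 4), (0, 1, 2, 4, 3), (0, 1, 3, 2, 4), (0, 1, 3, 4, 2), (0, 1, 4, 2, 3), (0, 1,
    4, 3, 2), (0, 2, 1, 3, 4), (0, 2, 1, 4, 3), (0, 2, 3, 1, 4), (0, 2, 3, 4, 1), (0, 2, 4, 1,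
    3), (0, 2, 4, 3, 1), (0, 3, 1, 2, 4), (0, 3, 1, 4, 2), (0, 3, 2, 1, 4), (0, 3, 2, 4, 1), (0,
    3, 4, 1, 2), (0, 3, 4, 2, 1), (0, 4, 1, 2, 3), (0, 4, 1, 3, 2), (0, 4, 2, 1, 3), (0, 4, 2,
    3, 1), (0, 4, 3, 1, 2), (0, 4, 3, 2, 1), (1, 0, 2, 3, 4), (1, 0, 2, 4, 3), (1, 0, 3, 2, 4),
    (1, 0, 3, 4, 2), (1, 0, 4, 2, 3), (1, 0, 4, 3, 2), (1, 2, 0, 3, 4), (1, 2, 0, 4, 3), (1, 2,
    3, 0, 4), (1, 2, 4, 0, 3), (1, 3, 0, 2, 4), (1, 3, 0, 4, 2), (1, 3, 2, 0, 4), (1, 3, 4, 0,
    2), (1, 4, 0, 2, 3), (1, 4, 0, 3, 2), (1, 4, 2, 0, 3), (1, 4, 3, 0, 2), (2, 0, 1, 3, 4), (2,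
    0, 1, 4, 3), (2, 0, 3, 1, 4), (2, 0, 4, 1, 3), (2, 1, 0, 3, 4), (2, 1, 0, 4, 3), (2, 1, 3,
    0, 4), (2, 1, 4, 0, 3), (2, 3, 0, 1, 4), (2, 3, 1, 0, 4), (2, 4, 0, 1, 3), (2, 4, 1, 0, 3),
    (3, 0, 1, 2, 4), (3, 0, 2, 1, 4), (3, 1, 0, 2, 4), (3, 1, 2, 0, 4), (3, 2, 0, 1, 4), (3, 2,
    1, 0, 4)]

/-- The order `o` is an induced path. -/
def isPath (M : Fin 5 → Fin 5 → Bool) (o : Fin 5 × Fin 5 × Fin 5 × Fin 5 × Fin 5) : Bool :=
  (M o.1 o.2.1 && M o.2.1 o.2.2.1 && M o.2.2.1 o.2.2.2.1 && M o.2.2.2.1 o.2.2.2.2) &&
  (!M o.1 o.2.2.1 && !M o.1 o.2.2.2.1 && !M o.1 o.2.2.2.2 && !M o.2.1 o.2.2.2.1 &&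
    !M o.2.1 o.2.2.2.2 && !M o.2.2.1 o.2.2.2.2)

theorem pset_sound : ∀ q0 q1 q2 q3 e01 e02 e03 e12 e13 e23 : Bool,
    pset.testBit (code q0 q1 q2 q3 e01 e02 e03 e12 e13 e23) = true →
      ords.any (isPath (matOf q0 q1 q2 q3 e01 e02 e03 e12 e13 e23)) = true := by
  decide +kernel

/-- Branching on a Boolean, written for kernel evaluation. -/
noncomputable def br {α : Type} (b : Bool) (x y : α) : α :=
  @Bool.rec (fun _ => α) y x b

/-- Forcing the evaluation of a number before it is used. -/
noncomputable def fN {α : Type} (n : Nat) (k : Nat → α) : α :=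
  @Nat.rec (fun _ => α) (k 0) (fun m _ => k (Nat.succ m)) n

/-- The bit `p` (a power of two) is set in `m`; the answer is `0` or `1`. -/
noncomputable def hb (m p : Nat) : Nat := br (Nat.beq (Nat.land m p) 0) 0 1

/-- The bit `i` of `m`, as a Boolean. -/
def tb (m i : Nat) : Bool := Nat.beq (Nat.land (Nat.shiftRight m i) 1) 1

/-- All sixteen adjacency patterns, with weights `0` or `1`. -/
def four : List (Nat × Nat × Nat × Nat) :=
  [(0, 0, 0, 0), (1, 0, 0, 0), (0, 1, 0, 0), (1, 1, 0, 0), (0, 0, 1, 0), (1, 0, 1, 0),
    (0, 1, 1, 0), (1, 1, 1, 0), (0, 0, 0, 1), (1, 0, 0, 1), (0, 1, 0, 1), (1, 1, 0, 1),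
    (0, 0, 1, 1), (1, 0, 1, 1), (0, 1, 1, 1), (1, 1, 1, 1)]

/-- One pattern, if it is excluded. -/
noncomputable def pat1 (e : Nat) (px py pz : Nat) (w : Nat) (v : Nat)
    (r : List (Nat × Nat × Nat)) : List (Nat × Nat × Nat) :=
  br (tb pset (Nat.add (Nat.add (hb v px) (Nat.mul 2 (hb v py)))
    (Nat.add (Nat.add (Nat.mul 4 (hb v pz)) (Nat.mul 8 w)) e)))
    (fN (Nat.lor (Nat.lor px py) pz) (fun T => (T, v, w) :: r)) r

/-- The adjacency patterns towards `x, y, z` and the new vertex which are excluded. -/
noncomputable def patsOf (x y z : Nat × Nat × Nat) (r : List (Nat × Nat × Nat)) :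
    List (Nat × Nat × Nat) :=
  fN (Nat.mul 16 (Nat.add
      (Nat.add (Nat.add (hb x.2.1 y.1) (Nat.mul 2 (hb x.2.1 z.1))) (Nat.mul 4 x.2.2))
      (Nat.add (Nat.add (Nat.mul 8 (hb y.2.1 z.1)) (Nat.mul 16 y.2.2)) (Nat.mul 32 z.2.2))))
    (fun e : Nat =>
      br (Nat.beq (Nat.land (Nat.shiftRight pset e) 65535) 0) r
        (@List.rec (Nat × Nat × Nat × Nat) (fun _ => List (Nat × Nat × Nat)) r
          (fun b _ ih => fN
            (Nat.add (Nat.add (Nat.mul b.1 x.1) (Nat.mul b.2.1 y.1)) (Nat.mul b.2.2.1 z.1))
            (fun v => pat1 e x.1 y.1 z.1 b.2.2.2 v ih))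
          four))

/-- The data of the present vertices: bit, row, adjacency with the new vertex. -/
noncomputable def items (rows : List (Nat × Nat × Nat)) : Nat → Nat → List (Nat × Nat × Nat) :=
  @List.rec (Nat × Nat × Nat) (fun _ => Nat → Nat → List (Nat × Nat × Nat))
    (fun _ _ => []) (fun r _ ih p m => fN (Nat.mod m 2) (fun b => (p, r.1, b) ::
      fN (Nat.mul 2 p) (fun p2 => fN (Nat.div m 2) (fun m2 => ih p2 m2)))) rows

noncomputable def tri3 (x y : Nat × Nat × Nat) (zs : List (Nat × Nat × Nat))
    (r : List (Nat × Nat × Nat)) : List (Nat × Nat × Nat) :=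
  @List.rec (Nat × Nat × Nat) (fun _ => List (Nat × Nat × Nat)) r
    (fun z _ ih => patsOf x y z ih) zs

noncomputable def tri2 (x : Nat × Nat × Nat) (ys : List (Nat × Nat × Nat))
    (r : List (Nat × Nat × Nat)) : List (Nat × Nat × Nat) :=
  @List.rec (Nat × Nat × Nat) (fun _ => List (Nat × Nat × Nat)) r
    (fun y zs ih => tri3 x y zs ih) ys

noncomputable def tri1 (xs : List (Nat × Nat × Nat)) : List (Nat × Nat × Nat) :=
  @List.rec (Nat × Nat × Nat) (fun _ => List (Nat × Nat × Nat)) []
    (fun x ys ih => tri2 x ys ih) xs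

noncomputable def okp (F : List (Nat × Nat × Nat)) (b m : Nat) : Bool :=
  @List.rec (Nat × Nat × Nat) (fun _ => Bool) true
    (fun p _ ih => br (Nat.beq b p.2.2) (br (Nat.beq (Nat.land m p.1) p.2.1) false ih) ih) F

/-- The new list of types after adding a vertex of type `t`. -/
noncomputable def extL (t : Nat × Nat × Nat) (F : List (Nat × Nat × Nat))
    (L : List (Nat × Nat × Nat)) : List (Nat × Nat × Nat) :=
  @List.rec (Nat × Nat × Nat) (fun _ => List (Nat × Nat × Nat)) []
    (fun s _ ih =>
      (fun r => br (okp F 0 s.1) (fN (Nat.mul 2 s.1) (fun m => (m, s.2) :: r)) r)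
        (br (Nat.beq s.2.1 t.2.1) ih (br (Nat.beq s.2.2 t.2.2) ih
          (br (okp F 1 s.1) (fN (Nat.add (Nat.mul 2 s.1) 1) (fun m => (m, s.2) :: ih)) ih)))) L

/-- The new rows after adding a vertex with adjacency mask `m`. -/
noncomputable def upd (rows : List (Nat × Nat × Nat)) : Nat → List (Nat × Nat × Nat) :=
  @List.rec (Nat × Nat × Nat) (fun _ => Nat → List (Nat × Nat × Nat))
    (fun _ => []) (fun r _ ih m => fN (Nat.add (Nat.mul 2 r.1) (Nat.mod m 2))
      (fun R => (R, r.2) :: fN (Nat.div m 2) (fun m2 => ih m2))) rows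

noncomputable def extR (t : Nat × Nat × Nat) (rows : List (Nat × Nat × Nat)) :
    List (Nat × Nat × Nat) :=
  fN (Nat.mul 2 t.1) (fun m => (m, t.2) :: upd rows t.1)

/-- Selecting the `k`-th entry. -/
noncomputable def nth {α : Type} (d : α) (l : List α) : Nat → α :=
  @List.rec α (fun _ => Nat → α) (fun _ => d)
    (fun x _ ih k => br (Nat.beq k 0) x (ih (Nat.sub k 1))) l

/-- The extension of all lists. -/
noncomputable def extAll (t : Nat × Nat × Nat) (F : List (Nat × Nat × Nat))
    (Ls : List (List (Nat × Nat × Nat))) : List (List (Nat × Nat × Nat)) :=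
  @List.rec (List (Nat × Nat × Nat)) (fun _ => List (List (Nat × Nat × Nat))) []
    (fun L _ ih => extL t F L :: ih) Ls

/-- The search, driven by the list of chosen obligations.  The entry `1000` says that the present
state is one of the states `known`, which are treated elsewhere. -/
noncomputable def search (known : List (List (Nat × Nat × Nat) × List (List (Nat × Nat × Nat))))
    (f : Nat) : List (Nat × Nat × Nat) → List (List (Nat × Nat × Nat)) →
    List Nat → Option (List Nat) :=
  @Nat.rec (fun _ => List (Nat × Nat × Nat) → List (List (Nat × Nat × Nat)) →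
    List Nat → Option (List Nat)) (fun _ _ _ => none)
    (fun _ ih rows Ls ct =>
      @List.rec Nat (fun _ => Option (List Nat)) none
        (fun o cert _ =>
          br (Nat.beq o 1000) (br (known.any (fun k => decide (k = (rows, Ls)))) (some cert) none)
          (br (Nat.beq (nth (0, 0, Nat.mod o 4) rows (Nat.div o 4)).2.2 (Nat.mod o 4)) none
            (@List.rec (Nat × Nat × Nat) (fun _ => List Nat → Option (List Nat))
              (fun c => some c)
              (fun t _ ih2 c =>
                br (tb t.1 (Nat.div o 4))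
                  (@Option.rec (List Nat) (fun _ => Option (List Nat)) none (fun c2 => ih2 c2)
                    (ih (extR t rows) (extAll t (tri1 (items rows 1 t.1)) Ls) c))
                  (ih2 c))
              (nth [] Ls (Nat.mod o 4)) cert))) ct) f

/-- All labels, by colour. -/
def all12 : List (List (Nat × Nat × Nat)) :=
  [[(0, 0, 0), (0, 1, 0), (0, 2, 0)], [(0, 0, 1), (0, 1, 1), (0, 2, 1)],
    [(0, 0, 2), (0, 1, 2), (0, 2, 2)], [(0, 0, 3), (0, 1, 3), (0, 2, 3)]]

noncomputable def rows1 : List (Nat × Nat × Nat) := extR (0, 0, 0) []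
noncomputable def L1 : List (List (Nat × Nat × Nat)) :=
  extAll (0, 0, 0) (tri1 (items [] 1 0)) all12
noncomputable def rows2 : List (Nat × Nat × Nat) := extR (1, 1, 1) rows1
noncomputable def L2 : List (List (Nat × Nat × Nat)) :=
  extAll (1, 1, 1) (tri1 (items rows1 1 1)) L1


section basics

theorem fN_eq {α : Type} (n : Nat) (k : Nat → α) : fN n k = k n := by
  cases n <;> rfl

theorem br_eq {α : Type} (b : Bool) (x y : α) : br b x y = if b = true then x else y := by
  cases b <;> rfl

theorem hb_eq (m p : Nat) : hb m p = if m &&& p = 0 then 0 else 1 := by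
  unfold hb
  rw [br_eq]
  have h : Nat.land m p = m &&& p := rfl
  rw [h]
  by_cases h0 : m &&& p = 0
  · simp [h0]
  · have : Nat.beq (m &&& p) 0 = false := by
      rw [← Bool.not_eq_true]
      intro h1
      exact h0 (Nat.eq_of_beq_eq_true h1)
    simp [h0, this]

theorem tb_eq (m i : Nat) : tb m i = m.testBit i := by
  unfold tb Nat.testBit
  have h : Nat.land (Nat.shiftRight m i) 1 = 1 &&& (m >>> i) := by
    rw [Nat.and_comm]; rfl
  rw [h]
  have h2 : 1 &&& (m >>> i) < 2 := by
    rw [Nat.one_and_eq_mod_two]
    exact Nat.mod_lt _ (by norm_num)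
  generalize 1 &&& (m >>> i) = z at h2
  interval_cases z <;> rfl

theorem beq_true_iff (a b : Nat) : Nat.beq a b = true ↔ a = b :=
  ⟨Nat.eq_of_beq_eq_true, fun h => by subst h; exact Nat.beq_refl _⟩

end basics

variable {V : Type}

theorem ty_testBit (A : V → V → Bool) (q : V) : ∀ (l : List V) (i : Nat) (h : i < l.length),
    (ty A l q).testBit i = A l[i] q := by
  intro l
  induction l with
  | nil => intro i h; simp at h
  | cons w l ih =>
    intro i h
    cases i with
    | zero =>
      simp only [ty, List.getElem_cons_zero, Nat.testBit_zero]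
      cases A w q <;> simp [bt]
    | succ i =>
      simp only [ty, List.getElem_cons_succ, Nat.testBit_succ]
      have : (2 * ty A l q + bt (A w q)) / 2 = ty A l q := by
        cases A w q <;> simp [bt] <;> omega
      rw [this]
      exact ih i (by simpa using h)

/-- The number `hb m (2 ^ i)` is the `i`-th bit. -/
theorem hb_pow (m i : Nat) : hb m (2 ^ i) = bt (m.testBit i) := by
  rw [hb_eq]
  by_cases h : m.testBit i = true
  · have : m &&& 2 ^ i ≠ 0 := by
      intro h0
      have h1 := congrArg (fun z => z.testBit i) h0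
      simp [Nat.testBit_and, Nat.testBit_two_pow, h] at h1
    simp [this, h, bt]
  · have h' : m.testBit i = false := by simpa using h
    have : m &&& 2 ^ i = 0 := by
      apply Nat.eq_of_testBit_eq
      intro j
      simp only [Nat.testBit_and, Nat.testBit_two_pow, Nat.zero_testBit]
      by_cases hj : i = j
      · subst hj; simp [h']
      · simp [hj]
    simp [this, h', bt]

theorem hb_ty (A : V → V → Bool) (l : List V) (q : V) (i : Nat) (h : i < l.length) :
    hb (ty A l q) (2 ^ i) = bt (A l[i] q) := by
  rw [hb_pow, ty_testBit A q l i h]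

/-- An item for the list `l` and the vertex `w`. -/
def IsItem (X : Ctx V) (l : List V) (w : V) (it : Nat × Nat × Nat) : Prop :=
  ∃ (i : Nat) (h : i < l.length), it = (2 ^ i, ty X.A l l[i], bt (X.A l[i] w))

theorem items_spec_aux (A : V → V → Bool) (a c : V → Nat) (w : V) (R : V → Nat) :
    ∀ (l : List V) (k : Nat),
    ∀ it ∈ items (l.map (fun x => (R x, a x, c x))) (2 ^ k) (ty A l w),
      ∃ (i : Nat) (h : i < l.length), it = (2 ^ (k + i), R l[i], bt (A l[i] w)) := by
  intro l
  induction l with
  | nil => intro k it h; simp [items] at h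
  | cons x l ih =>
    intro k it h
    have e1 : items ((x :: l).map (fun x => (R x, a x, c x))) (2 ^ k) (ty A (x :: l) w) =
        (2 ^ k, R x, bt (A x w)) ::
          items (l.map (fun x => (R x, a x, c x))) (2 ^ (k + 1)) (ty A l w) := by
      have h1 : Nat.mod (ty A (x :: l) w) 2 = bt (A x w) := by
        show (ty A (x :: l) w) % 2 = _
        simp only [ty]
        cases A x w <;> simp [bt] <;> omega
      have h2 : Nat.div (ty A (x :: l) w) 2 = ty A l w := by
        show (ty A (x :: l) w) / 2 = _
        simp only [ty]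
        cases A x w <;> simp [bt] <;> omega
      have h3 : Nat.mul 2 (2 ^ k) = 2 ^ (k + 1) := by
        show 2 * 2 ^ k = _
        rw [pow_succ]; ring
      conv_lhs => rw [List.map_cons]
      show fN (Nat.mod (ty A (x :: l) w) 2) (fun b => (2 ^ k, R x, b) ::
        fN (Nat.mul 2 (2 ^ k)) (fun p2 => fN (Nat.div (ty A (x :: l) w) 2)
          (fun m2 => items (l.map (fun x => (R x, a x, c x))) p2 m2))) = _
      rw [fN_eq, fN_eq, fN_eq, h1, h2, h3]
    rw [e1] at h
    rcases List.mem_cons.1 h with h | h
    · exact ⟨0, by simp, by simpa using h⟩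
    · obtain ⟨i, hi, e⟩ := ih (k + 1) it h
      refine ⟨i + 1, by simpa using hi, ?_⟩
      rw [e]
      simp [Nat.add_assoc, Nat.add_comm 1 i]

/-- The rows of a list of vertices. -/
def Rows (X : Ctx V) (l : List V) : List (Nat × Nat × Nat) :=
  l.map (fun x => (ty X.A l x, X.a x, X.c x))

theorem items_spec (X : Ctx V) (l : List V) (w : V) :
    ∀ it ∈ items (Rows X l) 1 (ty X.A l w), IsItem X l w it := by
  intro it h
  have h' := items_spec_aux X.A X.a X.c w (fun x => ty X.A l x) l 0 it (by simpa [Rows] using h)
  simpa [IsItem] using h'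

/-- A pattern which excludes no vertex. -/
def Good (X : Ctx V) (l : List V) (w : V) (p : Nat × Nat × Nat) : Prop :=
  ∀ q, bt (X.A w q) = p.2.2 → ty X.A l q &&& p.1 ≠ p.2.1

theorem bt_inj {x y : Bool} (h : bt x = bt y) : x = y := by
  cases x <;> cases y <;> simp_all [bt]

theorem irrefl (X : Ctx V) (x : V) : X.A x x = false := by
  cases h : X.A x x with
  | false => rfl
  | true => exact absurd rfl (X.proper x x h).1

/-- Five vertices never carry the code of a path. -/
theorem no_path (X : Ctx V) (x y z w q : V) :
    pset.testBit (code (X.A x q) (X.A y q) (X.A z q) (X.A w q) (X.A x y) (X.A x z) (X.A x w)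
      (X.A y z) (X.A y w) (X.A z w)) = false := by
  by_contra hne
  have h : pset.testBit (code (X.A x q) (X.A y q) (X.A z q) (X.A w q) (X.A x y) (X.A x z)
    (X.A x w) (X.A y z) (X.A y w) (X.A z w)) = true := by simpa using hne
  have h2 := pset_sound _ _ _ _ _ _ _ _ _ _ h
  rw [List.any_eq_true] at h2
  obtain ⟨o, -, ho⟩ := h2
  have hm : ∀ i j : Fin 5, matOf (X.A x q) (X.A y q) (X.A z q) (X.A w q) (X.A x y) (X.A x z)
      (X.A x w) (X.A y z) (X.A y w) (X.A z w) i j = X.A (![x, y, z, w, q] i) (![x, y, z, w, q] j) := by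
    intro i j
    fin_cases i <;> fin_cases j <;>
      first
        | exact (irrefl X _).symm
        | rfl
        | exact X.symm _ _
  simp only [isPath, hm, Bool.and_eq_true, Bool.not_eq_true'] at ho
  obtain ⟨⟨⟨⟨a1, a2⟩, a3⟩, a4⟩, ⟨⟨⟨⟨b1, b2⟩, b3⟩, b4⟩, b5⟩, b6⟩ := ho
  exact X.p5 _ _ _ _ _ a1 a2 a3 a4 b1 b2 b3 b4 b5 b6

theorem land_lor_absorb (m px py pz : Nat) :
    hb (m &&& (px ||| py ||| pz)) px = hb m px ∧ hb (m &&& (px ||| py ||| pz)) py = hb m py ∧
      hb (m &&& (px ||| py ||| pz)) pz = hb m pz := by
  have h1 : (m &&& (px ||| py ||| pz)) &&& px = m &&& px := by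
    apply Nat.eq_of_testBit_eq; intro j
    simp only [Nat.testBit_and, Nat.testBit_or]
    cases m.testBit j <;> cases px.testBit j <;> cases py.testBit j <;> cases pz.testBit j <;> rfl
  have h2 : (m &&& (px ||| py ||| pz)) &&& py = m &&& py := by
    apply Nat.eq_of_testBit_eq; intro j
    simp only [Nat.testBit_and, Nat.testBit_or]
    cases m.testBit j <;> cases px.testBit j <;> cases py.testBit j <;> cases pz.testBit j <;> rfl
  have h3 : (m &&& (px ||| py ||| pz)) &&& pz = m &&& pz := by
    apply Nat.eq_of_testBit_eq; intro j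
    simp only [Nat.testBit_and, Nat.testBit_or]
    cases m.testBit j <;> cases px.testBit j <;> cases py.testBit j <;> cases pz.testBit j <;> rfl
  refine ⟨?_, ?_, ?_⟩
  · rw [hb_eq, hb_eq, h1]
  · rw [hb_eq, hb_eq, h2]
  · rw [hb_eq, hb_eq, h3]

theorem pat1_good (X : Ctx V) (l : List V) (w : V) (x y z : Nat × Nat × Nat)
    (hx : IsItem X l w x) (hy : IsItem X l w y) (hz : IsItem X l w z) (v b : Nat)
    (r : List (Nat × Nat × Nat)) (hr : ∀ p ∈ r, Good X l w p) :
    ∀ p ∈ pat1 (Nat.mul 16 (Nat.add
      (Nat.add (Nat.add (hb x.2.1 y.1) (Nat.mul 2 (hb x.2.1 z.1))) (Nat.mul 4 x.2.2))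
      (Nat.add (Nat.add (Nat.mul 8 (hb y.2.1 z.1)) (Nat.mul 16 y.2.2)) (Nat.mul 32 z.2.2))))
      x.1 y.1 z.1 b v r, Good X l w p := by
  intro p hp
  unfold pat1 at hp
  rw [br_eq] at hp
  split at hp
  · rename_i hcond
    rw [fN_eq] at hp
    rcases List.mem_cons.1 hp with hp | hp
    · subst hp
      intro q hq heq
      simp only at hq heq
      obtain ⟨i, hi, rfl⟩ := hx
      obtain ⟨j, hj, rfl⟩ := hy
      obtain ⟨k, hk, rfl⟩ := hz
      simp only at hcond heq
      have heq' : ty X.A l q &&& (2 ^ i ||| 2 ^ j ||| 2 ^ k) = v := heq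
      obtain ⟨a1, a2, a3⟩ := land_lor_absorb (ty X.A l q) (2 ^ i) (2 ^ j) (2 ^ k)
      rw [heq'] at a1 a2 a3
      rw [hb_ty X.A l q i hi] at a1
      rw [hb_ty X.A l q j hj] at a2
      rw [hb_ty X.A l q k hk] at a3
      rw [a1, a2, a3, hb_ty X.A l _ j hj, hb_ty X.A l _ k hk, hb_ty X.A l _ k hk, ← hq,
        tb_eq] at hcond
      have key := no_path X l[i] l[j] l[k] w q
      have e : code (X.A l[i] q) (X.A l[j] q) (X.A l[k] q) (X.A w q) (X.A l[i] l[j])
          (X.A l[i] l[k]) (X.A l[i] w) (X.A l[j] l[k]) (X.A l[j] w) (X.A l[k] w) =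
          Nat.add (Nat.add (bt (X.A l[i] q)) (Nat.mul 2 (bt (X.A l[j] q))))
            (Nat.add (Nat.add (Nat.mul 4 (bt (X.A l[k] q))) (Nat.mul 8 (bt (X.A w q))))
              (Nat.mul 16 (Nat.add
                (Nat.add (Nat.add (bt (X.A l[j] l[i])) (Nat.mul 2 (bt (X.A l[k] l[i]))))
                  (Nat.mul 4 (bt (X.A l[i] w))))
                (Nat.add (Nat.add (Nat.mul 8 (bt (X.A l[k] l[j]))) (Nat.mul 16 (bt (X.A l[j] w))))
                  (Nat.mul 32 (bt (X.A l[k] w))))))) := by
        rw [X.symm l[j] l[i], X.symm l[k] l[i], X.symm l[k] l[j]]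
        unfold code
        show _ = (bt (X.A l[i] q) + 2 * bt (X.A l[j] q)) + ((4 * bt (X.A l[k] q) +
          8 * bt (X.A w q)) + 16 * (((bt (X.A l[i] l[j]) + 2 * bt (X.A l[i] l[k])) +
            4 * bt (X.A l[i] w)) + ((8 * bt (X.A l[j] l[k]) + 16 * bt (X.A l[j] w)) +
              32 * bt (X.A l[k] w))))
        ring
      rw [e] at key
      rw [key] at hcond
      exact absurd hcond (by simp)
    · exact hr p hp
  · exact hr p hp

theorem patsOf_good (X : Ctx V) (l : List V) (w : V) (x y z : Nat × Nat × Nat)
    (hx : IsItem X l w x) (hy : IsItem X l w y) (hz : IsItem X l w z)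
    (r : List (Nat × Nat × Nat)) (hr : ∀ p ∈ r, Good X l w p) :
    ∀ p ∈ patsOf x y z r, Good X l w p := by
  unfold patsOf
  rw [fN_eq, br_eq]
  split
  · exact hr
  · generalize four = L4
    induction L4 with
    | nil => exact hr
    | cons b L4 ih =>
      show ∀ p ∈ fN _ (fun v => pat1 _ x.1 y.1 z.1 b.2.2.2 v _), Good X l w p
      rw [fN_eq]
      exact pat1_good X l w x y z hx hy hz _ _ _ ih

theorem tri3_good (X : Ctx V) (l : List V) (w : V) (x y : Nat × Nat × Nat)
    (hx : IsItem X l w x) (hy : IsItem X l w y) (r : List (Nat × Nat × Nat))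
    (hr : ∀ p ∈ r, Good X l w p) : ∀ zs : List (Nat × Nat × Nat), (∀ z ∈ zs, IsItem X l w z) →
    ∀ p ∈ tri3 x y zs r, Good X l w p := by
  intro zs
  induction zs with
  | nil => intro _; exact hr
  | cons z zs ih =>
    intro h
    show ∀ p ∈ patsOf x y z (tri3 x y zs r), Good X l w p
    exact patsOf_good X l w x y z hx hy (h z (by simp)) _
      (ih (fun z' hz' => h z' (by simp [hz'])))

theorem tri2_good (X : Ctx V) (l : List V) (w : V) (x : Nat × Nat × Nat)
    (hx : IsItem X l w x) (r : List (Nat × Nat × Nat))
    (hr : ∀ p ∈ r, Good X l w p) : ∀ ys : List (Nat × Nat × Nat), (∀ z ∈ ys, IsItem X l w z) →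
    ∀ p ∈ tri2 x ys r, Good X l w p := by
  intro ys
  induction ys with
  | nil => intro _; exact hr
  | cons y ys ih =>
    intro h
    show ∀ p ∈ tri3 x y ys (tri2 x ys r), Good X l w p
    exact tri3_good X l w x y hx (h y (by simp)) _ (ih (fun z' hz' => h z' (by simp [hz']))) ys
      (fun z' hz' => h z' (by simp [hz']))

theorem tri1_good (X : Ctx V) (l : List V) (w : V) : ∀ xs : List (Nat × Nat × Nat),
    (∀ z ∈ xs, IsItem X l w z) → ∀ p ∈ tri1 xs, Good X l w p := by
  intro xs
  induction xs with
  | nil => intro _ p hp; simp [tri1] at hp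
  | cons x xs ih =>
    intro h
    show ∀ p ∈ tri2 x xs (tri1 xs), Good X l w p
    exact tri2_good X l w x (h x (by simp)) _ (ih (fun z' hz' => h z' (by simp [hz']))) xs
      (fun z' hz' => h z' (by simp [hz']))

theorem okp_true (X : Ctx V) (l : List V) (w : V) (F : List (Nat × Nat × Nat))
    (hF : ∀ p ∈ F, Good X l w p) (q : V) : okp F (bt (X.A w q)) (ty X.A l q) = true := by
  induction F with
  | nil => rfl
  | cons p F ih =>
    have ih' := ih (fun p' hp' => hF p' (by simp [hp']))
    show br (Nat.beq (bt (X.A w q)) p.2.2)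
      (br (Nat.beq (Nat.land (ty X.A l q) p.1) p.2.1) false (okp F (bt (X.A w q)) (ty X.A l q)))
      (okp F (bt (X.A w q)) (ty X.A l q)) = true
    rw [ih', br_eq, br_eq]
    split
    · rename_i h1
      rw [beq_true_iff] at h1
      split
      · rename_i h2
        rw [beq_true_iff] at h2
        exact absurd h2 (hF p (by simp) q h1)
      · rfl
    · rfl

theorem extL_mem (X : Ctx V) (l : List V) (w : V) (F : List (Nat × Nat × Nat))
    (hF : ∀ p ∈ F, Good X l w p) (q : V) (m : Nat) (L : List (Nat × Nat × Nat))
    (h : (ty X.A l q, X.a q, X.c q) ∈ L) :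
    (ty X.A (w :: l) q, X.a q, X.c q) ∈ extL (m, X.a w, X.c w) F L := by
  induction L with
  | nil => simp at h
  | cons s L ih =>
    have key : extL (m, X.a w, X.c w) F (s :: L) =
        (fun r => if okp F 0 s.1 = true then (2 * s.1, s.2) :: r else r)
          (if s.2.1 = X.a w then extL (m, X.a w, X.c w) F L else
            if s.2.2 = X.c w then extL (m, X.a w, X.c w) F L else
              if okp F 1 s.1 = true then (2 * s.1 + 1, s.2) :: extL (m, X.a w, X.c w) F L else
                extL (m, X.a w, X.c w) F L) := by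
      show (fun r => br (okp F 0 s.1) (fN (Nat.mul 2 s.1) (fun m => (m, s.2) :: r)) r)
        (br (Nat.beq s.2.1 (X.a w)) (extL (m, X.a w, X.c w) F L)
          (br (Nat.beq s.2.2 (X.c w)) (extL (m, X.a w, X.c w) F L)
          (br (okp F 1 s.1) (fN (Nat.add (Nat.mul 2 s.1) 1)
            (fun m' => (m', s.2) :: (extL (m, X.a w, X.c w) F L)))
              (extL (m, X.a w, X.c w) F L)))) = _
      simp only [br_eq, fN_eq, beq_true_iff]
      rfl
    rw [key]
    simp only
    have tail : ∀ z, z ∈ extL (m, X.a w, X.c w) F L → z ∈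
        (if okp F 0 s.1 = true then (2 * s.1, s.2) ::
          (if s.2.1 = X.a w then extL (m, X.a w, X.c w) F L else
            if s.2.2 = X.c w then extL (m, X.a w, X.c w) F L else
              if okp F 1 s.1 = true then (2 * s.1 + 1, s.2) :: extL (m, X.a w, X.c w) F L else
                extL (m, X.a w, X.c w) F L) else
          (if s.2.1 = X.a w then extL (m, X.a w, X.c w) F L else
            if s.2.2 = X.c w then extL (m, X.a w, X.c w) F L else
              if okp F 1 s.1 = true then (2 * s.1 + 1, s.2) :: extL (m, X.a w, X.c w) F L else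
                extL (m, X.a w, X.c w) F L)) := by
      intro z hz
      split_ifs <;> simp [hz]
    rcases List.mem_cons.1 h with h | h
    · subst h
      simp only
      have hok := okp_true X l w F hF q
      cases hA : X.A w q with
      | false =>
        rw [hA] at hok
        have hok' : okp F 0 (ty X.A l q) = true := hok
        rw [if_pos hok']
        simp [ty, hA, bt]
      | true =>
        rw [hA] at hok
        have hok' : okp F 1 (ty X.A l q) = true := hok
        obtain ⟨h1, h2⟩ := X.proper w q hA
        have e1 : ¬ (X.a q = X.a w) := fun e => h1 e.symm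
        have e2 : ¬ (X.c q = X.c w) := fun e => h2 e.symm
        have e3 : (ty X.A (w :: l) q, X.a q, X.c q) = (2 * ty X.A l q + 1, X.a q, X.c q) := by
          simp [ty, hA, bt]
        rw [e3, if_neg e1, if_neg e2, if_pos hok']
        split_ifs <;> simp
    · exact tail _ (ih h)

theorem nth_mem_of {α : Type} (d : α) (l : List α) (k : Nat) : nth d l k = l.getD k d := by
  induction l generalizing k with
  | nil => simp [nth]
  | cons x l ih =>
    show br (Nat.beq k 0) x (nth d l (Nat.sub k 1)) = _
    rw [br_eq]
    cases k with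
    | zero => simp
    | succ k =>
      have : ¬ (Nat.beq (k + 1) 0 = true) := by simp
      rw [if_neg this]
      rw [ih]
      simp

theorem nth_extAll (t : Nat × Nat × Nat) (F : List (Nat × Nat × Nat))
    (Ls : List (List (Nat × Nat × Nat))) (k : Nat) :
    nth [] (extAll t F Ls) k = extL t F (nth [] Ls k) := by
  induction Ls generalizing k with
  | nil =>
    show nth [] ([] : List (List (Nat × Nat × Nat))) k = extL t F (nth [] [] k)
    simp [nth, extL]
  | cons L Ls ih =>
    show br (Nat.beq k 0) (extL t F L) (nth [] (extAll t F Ls) (Nat.sub k 1)) =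
      extL t F (br (Nat.beq k 0) L (nth [] Ls (Nat.sub k 1)))
    rw [br_eq, br_eq, ih]
    split <;> rfl

theorem upd_spec (A : V → V → Bool) (a c : V → Nat) (w : V) (R : V → Nat) : ∀ l : List V,
    upd (l.map (fun x => (R x, a x, c x))) (ty A l w) =
      l.map (fun x => (2 * R x + bt (A x w), a x, c x)) := by
  intro l
  induction l with
  | nil => rfl
  | cons x l ih =>
    have h1 : Nat.mod (ty A (x :: l) w) 2 = bt (A x w) := by
      show (ty A (x :: l) w) % 2 = _
      simp only [ty]
      cases A x w <;> simp [bt] <;> omega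
    have h2 : Nat.div (ty A (x :: l) w) 2 = ty A l w := by
      show (ty A (x :: l) w) / 2 = _
      simp only [ty]
      cases A x w <;> simp [bt] <;> omega
    rw [List.map_cons, List.map_cons]
    show fN (Nat.add (Nat.mul 2 (R x)) (Nat.mod (ty A (x :: l) w) 2))
      (fun R' => (R', a x, c x) :: fN (Nat.div (ty A (x :: l) w) 2)
        (fun m2 => upd (l.map (fun x => (R x, a x, c x))) m2)) = _
    rw [fN_eq, fN_eq, h1, h2, ih]
    rfl

theorem extR_spec (X : Ctx V) (l : List V) (w : V) :
    extR (ty X.A l w, X.a w, X.c w) (Rows X l) = Rows X (w :: l) := by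
  unfold extR
  rw [fN_eq]
  have h := upd_spec X.A X.a X.c w (fun x => ty X.A l x) l
  unfold Rows
  rw [h, List.map_cons]
  congr 1
  · simp only [ty, irrefl]
    rfl
  · apply List.map_congr_left
    intro x _
    simp only [ty, X.symm x w]

/-- The state describes the situation of the vertices `l`. -/
def Typed (X : Ctx V) (l : List V) (rows : List (Nat × Nat × Nat))
    (Ls : List (List (Nat × Nat × Nat))) : Prop :=
  rows = Rows X l ∧ ∀ q, (ty X.A l q, X.a q, X.c q) ∈ nth [] Ls (X.c q)

/-- No graph has this state. -/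
def Impossible (s : List (Nat × Nat × Nat) × List (List (Nat × Nat × Nat))) : Prop :=
  ∀ (V : Type) (X : Ctx V) (l : List V), ¬ Typed X l s.1 s.2

theorem typed_ext (X : Ctx V) (l : List V) (rows : List (Nat × Nat × Nat))
    (Ls : List (List (Nat × Nat × Nat))) (h : Typed X l rows Ls) (w : V) :
    Typed X (w :: l) (extR (ty X.A l w, X.a w, X.c w) rows)
      (extAll (ty X.A l w, X.a w, X.c w) (tri1 (items rows 1 (ty X.A l w))) Ls) := by
  obtain ⟨h1, h2⟩ := h
  subst h1
  refine ⟨extR_spec X l w, fun q => ?_⟩
  rw [nth_extAll]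
  exact extL_mem X l w _ (tri1_good X l w _ (items_spec X l w)) q _ _ (h2 q)

theorem rows_nth (X : Ctx V) (l : List V) (d : Nat × Nat × Nat) (i : Nat) (h : i < l.length) :
    nth d (Rows X l) i = (ty X.A l l[i], X.a l[i], X.c l[i]) := by
  rw [nth_mem_of]
  simp [Rows, List.getD, h]

theorem search_sound (known : List (List (Nat × Nat × Nat) × List (List (Nat × Nat × Nat))))
    (hk : ∀ s ∈ known, Impossible s) : ∀ (f : Nat) (rows : List (Nat × Nat × Nat))
    (Ls : List (List (Nat × Nat × Nat))) (ct c' : List Nat),
    search known f rows Ls ct = some c' → Impossible (rows, Ls) := by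
  intro f
  induction f with
  | zero => intro rows Ls ct c' h; exact absurd h (by simp [search])
  | succ f ih =>
    intro rows Ls ct c' h
    cases ct with
    | nil => exact absurd h (by simp [search])
    | cons o cert =>
      have h' : br (Nat.beq o 1000)
          (br (known.any (fun k => decide (k = (rows, Ls)))) (some cert) none)
          (br (Nat.beq (nth (0, 0, Nat.mod o 4) rows (Nat.div o 4)).2.2 (Nat.mod o 4)) none
            (@List.rec (Nat × Nat × Nat) (fun _ => List Nat → Option (List Nat))
              (fun c => some c)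
              (fun t _ ih2 c =>
                br (tb t.1 (Nat.div o 4))
                  (@Option.rec (List Nat) (fun _ => Option (List Nat)) none (fun c2 => ih2 c2)
                    (search known f (extR t rows)
                      (extAll t (tri1 (items rows 1 t.1)) Ls) c))
                  (ih2 c))
              (nth [] Ls (Nat.mod o 4)) cert)) = some c' := h
      rw [br_eq] at h'
      split at h'
      · rw [br_eq] at h'
        split at h'
        · rename_i hany
          rw [List.any_eq_true] at hany
          obtain ⟨k, hk1, hk2⟩ := hany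
          have : k = (rows, Ls) := by simpa using hk2
          rw [← this]
          exact hk k hk1
        · exact absurd h' (by simp)
      · rw [br_eq] at h'
        split at h'
        · exact absurd h' (by simp)
        · rename_i hcol
          intro V X l hT
          have hT' : Typed X l rows Ls := hT
          -- every candidate is impossible
          have cand : ∀ (K : List (Nat × Nat × Nat)) (c c' : List Nat),
              (@List.rec (Nat × Nat × Nat) (fun _ => List Nat → Option (List Nat))
              (fun c => some c)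
              (fun t _ ih2 c =>
                br (tb t.1 (Nat.div o 4))
                  (@Option.rec (List Nat) (fun _ => Option (List Nat)) none (fun c2 => ih2 c2)
                    (search known f (extR t rows)
                      (extAll t (tri1 (items rows 1 t.1)) Ls) c))
                  (ih2 c)) K c) = some c' →
              ∀ t ∈ K, t.1.testBit (o / 4) = true →
                Impossible (extR t rows, extAll t (tri1 (items rows 1 t.1)) Ls) := by
            intro K
            induction K with
            | nil => intro c c' _ t ht; simp at ht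
            | cons t0 K ihK =>
              intro c c' hc t ht htb
              have hc' : br (tb t0.1 (Nat.div o 4))
                  (@Option.rec (List Nat) (fun _ => Option (List Nat)) none
                    (fun c2 => (@List.rec (Nat × Nat × Nat) (fun _ => List Nat → Option (List Nat))
                      (fun c => some c)
                      (fun t _ ih2 c =>
                        br (tb t.1 (Nat.div o 4))
                          (@Option.rec (List Nat) (fun _ => Option (List Nat)) none
                            (fun c2 => ih2 c2)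
                            (search known f (extR t rows)
                              (extAll t (tri1 (items rows 1 t.1)) Ls) c))
                          (ih2 c)) K c2))
                    (search known f (extR t0 rows)
                      (extAll t0 (tri1 (items rows 1 t0.1)) Ls) c))
                  (@List.rec (Nat × Nat × Nat) (fun _ => List Nat → Option (List Nat))
                      (fun c => some c)
                      (fun t _ ih2 c =>
                        br (tb t.1 (Nat.div o 4))
                          (@Option.rec (List Nat) (fun _ => Option (List Nat)) none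
                            (fun c2 => ih2 c2)
                            (search known f (extR t rows)
                              (extAll t (tri1 (items rows 1 t.1)) Ls) c))
                          (ih2 c)) K c) = some c' := hc
              rw [br_eq] at hc'
              split at hc'
              · cases hs : search known f (extR t0 rows)
                  (extAll t0 (tri1 (items rows 1 t0.1)) Ls) c with
                | none => rw [hs] at hc'; exact absurd hc' (by simp)
                | some c2 =>
                  rw [hs] at hc'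
                  rcases List.mem_cons.1 ht with ht | ht
                  · subst ht
                    exact ih _ _ _ _ hs
                  · exact ihK c2 c' hc' t ht htb
              · rename_i hnt
                rcases List.mem_cons.1 ht with ht | ht
                · subst ht
                  rw [tb_eq] at hnt
                  exact absurd htb hnt
                · exact ihK c c' hc' t ht htb
          -- the obligation
          obtain ⟨hrows, hall⟩ := hT'
          have hj : o % 4 < 4 := Nat.mod_lt _ (by norm_num)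
          by_cases hi : o / 4 < l.length
          · have hne : o % 4 ≠ X.c l[o / 4] := by
              intro he
              apply hcol
              rw [beq_true_iff, hrows]
              show (nth (0, 0, Nat.mod o 4) (Rows X l) (o / 4)).2.2 = o % 4
              rw [rows_nth X l _ _ hi]
              exact he.symm
            obtain ⟨w, hw1, hw2⟩ := X.frozen l[o / 4] (o % 4) hj hne
            have hmem := hall w
            rw [hw2] at hmem
            have himp := cand _ _ _ h' _ hmem (by
              show (ty X.A l w).testBit (o / 4) = true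
              rw [ty_testBit X.A w l _ hi]; exact hw1)
            have ht := typed_ext X l rows Ls ⟨hrows, hall⟩ w
            rw [hw2] at ht
            exact himp V X (w :: l) ht
          · apply hcol
            rw [beq_true_iff, hrows]
            show (nth (0, 0, Nat.mod o 4) (Rows X l) (o / 4)).2.2 = Nat.mod o 4
            rw [nth_mem_of]
            simp [Rows, List.getD, hi]

theorem impossible_of_check
    (known : List (List (Nat × Nat × Nat) × List (List (Nat × Nat × Nat))))
    (hk : ∀ s ∈ known, Impossible s) (s : List (Nat × Nat × Nat) × List (List (Nat × Nat × Nat)))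
    (ct : List Nat) (h : (search known 14 s.1 s.2 ct).isSome = true) : Impossible s := by
  obtain ⟨c', hc⟩ := Option.isSome_iff_exists.1 h
  exact search_sound known hk 14 s.1 s.2 ct c' hc

end Pool.Agent.Run7.h601.FiveFree
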