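import Pool.Agent.Run7.h601.FiveFree

/-!
A part of the certificate of the search of `Pool.Agent.Run7.h601.FiveFree`.
-/

set_option autoImplicit false

namespace Pool.Agent.Run7.h601.FiveFree

def s0 : List (Nat × Nat × Nat) × List (List (Nat × Nat × Nat)) :=
  ([(6, 2, 0), (17, 1, 2), (9, 0, 2), (20, 1, 1), (10, 0, 0)],
    [[(0, 0, 0), (10, 0, 0), (0, 1, 0), (0, 2, 0), (6, 2, 0), (10, 2, 0), (14, 2, 0)], [(0, 0,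
    1), (0, 1, 1), (17, 1, 1), (20, 1, 1), (21, 1, 1), (0, 2, 1), (6, 2, 1), (20, 2, 1), (22, 2,
    1)], [(0, 0, 2), (9, 0, 2), (0, 1, 2), (17, 1, 2), (0, 2, 2)], [(0, 0, 3), (9, 0, 3), (10,
    0, 3), (11, 0, 3), (0, 1, 3), (17, 1, 3), (20, 1, 3), (21, 1, 3), (0, 2, 3), (6, 2, 3), (10,
    2, 3), (14, 2, 3), (20, 2, 3), (22, 2, 3), (26, 2, 3), (28, 2, 3), (30, 2, 3)]])

def c0 : List Nat :=
  [5, 5, 4, 15, 2, 31, 15, 7, 31, 2, 27, 19, 15, 15, 15, 11, 27, 5, 2, 11, 2, 27, 39, 39, 35,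
    23, 23, 35, 31, 31, 2, 27, 19, 23, 15, 11, 7, 2, 2, 23, 23, 23, 35, 31, 19, 19, 19, 31, 27,
    27, 2, 23, 15, 19, 11, 11]

theorem imp0 : Impossible s0 :=
  impossible_of_check [] (by simp) s0 c0 (by decide +kernel)

def s1 : List (Nat × Nat × Nat) × List (List (Nat × Nat × Nat)) :=
  ([(14, 2, 0), (17, 1, 2), (9, 0, 2), (21, 1, 1), (10, 0, 0)],
    [[(0, 0, 0), (8, 0, 0), (10, 0, 0), (0, 1, 0), (0, 2, 0), (6, 2, 0), (8, 2, 0), (10, 2, 0),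
    (14, 2, 0)], [(0, 0, 1), (1, 0, 1), (0, 1, 1), (1, 1, 1), (17, 1, 1), (20, 1, 1), (21, 1,
    1), (0, 2, 1), (6, 2, 1), (18, 2, 1), (20, 2, 1), (22, 2, 1)], [(0, 0, 2), (1, 0, 2), (8, 0,
    2), (9, 0, 2), (0, 1, 2), (1, 1, 2), (17, 1, 2), (0, 2, 2), (8, 2, 2)], [(0, 0, 3), (1, 0,
    3), (8, 0, 3), (9, 0, 3), (10, 0, 3), (11, 0, 3), (0, 1, 3), (1, 1, 3), (17, 1, 3), (20, 1,
    3), (21, 1, 3), (0, 2, 3), (6, 2, 3), (8, 2, 3), (10, 2, 3), (14, 2, 3), (18, 2, 3), (20, 2,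
    3), (22, 2, 3), (26, 2, 3), (28, 2, 3), (30, 2, 3)]])

def c1 : List Nat :=
  [5, 0, 2, 15, 2, 31, 19, 27, 15, 11, 2, 23, 35, 35, 31, 19, 19, 31, 27, 27, 11, 2, 27, 15,
    23, 11, 11, 2, 2, 19, 27, 27, 31, 27, 15, 15, 15, 27, 23, 23, 15, 23, 11, 23, 1, 19, 27, 31,
    19, 10, 27, 1, 15, 6, 23, 1, 1, 27, 0, 19, 19, 15, 23, 23, 2, 5, 11, 23, 19, 19, 1, 27, 0,
    19, 19, 15, 23, 7, 0, 5, 27, 11, 11, 11]

theorem imp1 : Impossible s1 :=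
  impossible_of_check [] (by simp) s1 c1 (by decide +kernel)

def s2 : List (Nat × Nat × Nat) × List (List (Nat × Nat × Nat)) :=
  ([(8, 2, 2), (4, 0, 2), (10, 1, 1), (5, 0, 0)],
    [[(0, 0, 0), (4, 0, 0), (5, 0, 0), (0, 1, 0), (3, 1, 0), (0, 2, 0), (4, 2, 0), (6, 2, 0)],
    [(0, 0, 1), (0, 1, 1), (3, 1, 1), (8, 1, 1), (9, 1, 1), (10, 1, 1), (11, 1, 1), (0, 2, 1),
    (8, 2, 1), (10, 2, 1)], [(0, 0, 2), (4, 0, 2), (0, 1, 2), (8, 1, 2), (0, 2, 2), (4, 2, 2),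
    (8, 2, 2), (12, 2, 2)], [(0, 0, 3), (4, 0, 3), (5, 0, 3), (0, 1, 3), (3, 1, 3), (8, 1, 3),
    (9, 1, 3), (10, 1, 3), (11, 1, 3), (0, 2, 3), (4, 2, 3), (6, 2, 3), (8, 2, 3), (10, 2, 3),
    (12, 2, 3), (14, 2, 3)]])

def c2 : List Nat :=
  [4, 5, 5, 4, 7, 27, 27, 27, 0, 35, 31, 31, 27, 39, 39, 0, 23, 23, 19, 19, 15, 5, 2, 19, 0,
    39, 15, 7, 39, 0, 23, 23, 11, 19, 19, 15, 23, 3, 0, 23, 23, 23, 23, 0, 31, 19, 19, 27, 23,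
    35, 35, 0, 19, 19, 15, 15, 15, 11, 19, 0, 2, 19, 5, 4, 5, 5, 0, 19, 11, 19, 5, 2, 2, 0, 7,
    4]

theorem imp2 : Impossible s2 :=
  impossible_of_check [] (by simp) s2 c2 (by decide +kernel)

def s3 : List (Nat × Nat × Nat) × List (List (Nat × Nat × Nat)) :=
  ([(6, 1, 0), (25, 2, 2), (9, 0, 2), (22, 1, 1), (10, 0, 0)],
    [[(0, 0, 0), (2, 0, 0), (8, 0, 0), (10, 0, 0), (0, 1, 0), (2, 1, 0), (6, 1, 0), (0, 2, 0),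
    (8, 2, 0)], [(0, 0, 1), (2, 0, 1), (0, 1, 1), (2, 1, 1), (6, 1, 1), (20, 1, 1), (22, 1, 1),
    (0, 2, 1), (5, 2, 1), (17, 2, 1), (20, 2, 1), (21, 2, 1)], [(0, 0, 2), (8, 0, 2), (9, 0, 2),
    (0, 1, 2), (0, 2, 2), (8, 2, 2), (9, 2, 2), (17, 2, 2), (25, 2, 2)], [(0, 0, 3), (2, 0, 3),
    (8, 0, 3), (9, 0, 3), (10, 0, 3), (11, 0, 3), (0, 1, 3), (2, 1, 3), (6, 1, 3), (20, 1, 3),
    (22, 1, 3), (0, 2, 3), (5, 2, 3), (8, 2, 3), (9, 2, 3), (13, 2, 3), (17, 2, 3), (20, 2, 3),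
    (21, 2, 3), (25, 2, 3), (28, 2, 3), (29, 2, 3)]])

def c3 : List Nat :=
  [1, 23, 23, 15, 2, 0, 19, 0, 39, 19, 35, 15, 11, 0, 19, 35, 35, 31, 19, 19, 31, 23, 23, 15,
    0, 35, 15, 31, 11, 11, 0, 0, 15, 35, 35, 31, 27, 15, 15, 15, 27, 19, 19, 23, 1, 27, 0, 23,
    19, 15, 27, 23, 0, 5, 11, 23, 15, 15, 1, 19, 27, 15, 19, 10, 27, 1, 1, 27, 0, 23, 19, 15,
    27, 7, 2, 5, 27, 15, 6, 23, 1, 15, 11, 11]

theorem imp3 : Impossible s3 :=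
  impossible_of_check [] (by simp) s3 c3 (by decide +kernel)

end Pool.Agent.Run7.h601.FiveFree
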