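import Pool.Agent.Run7.h601.FiveFree

/-!
A part of the certificate of the search of `Pool.Agent.Run7.h601.FiveFree`.
-/

set_option autoImplicit false

namespace Pool.Agent.Run7.h601.FiveFree

def s4 : List (Nat × Nat × Nat) × List (List (Nat × Nat × Nat)) :=
  ([(4, 2, 0), (24, 2, 2), (9, 0, 2), (22, 1, 1), (10, 0, 0)],
    [[(0, 0, 0), (8, 0, 0), (10, 0, 0), (0, 1, 0), (4, 1, 0), (0, 2, 0), (4, 2, 0), (8, 2, 0),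
    (12, 2, 0)], [(0, 0, 1), (0, 1, 1), (4, 1, 1), (5, 1, 1), (7, 1, 1), (19, 1, 1), (21, 1, 1),
    (22, 1, 1), (23, 1, 1), (0, 2, 1), (4, 2, 1)], [(0, 0, 2), (8, 0, 2), (9, 0, 2), (0, 1, 2),
    (0, 2, 2), (8, 2, 2), (24, 2, 2)], [(0, 0, 3), (8, 0, 3), (9, 0, 3), (10, 0, 3), (0, 1, 3),
    (4, 1, 3), (5, 1, 3), (7, 1, 3), (19, 1, 3), (21, 1, 3), (22, 1, 3), (23, 1, 3), (0, 2, 3),
    (4, 2, 3), (8, 2, 3), (12, 2, 3), (24, 2, 3)]])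

def c4 : List Nat :=
  [19, 19, 2, 0, 19, 15, 19, 5, 6, 5, 5, 2, 19, 5, 0, 0, 2, 11, 6]

theorem imp4 : Impossible s4 :=
  impossible_of_check [] (by simp) s4 c4 (by decide +kernel)

def s5 : List (Nat × Nat × Nat) × List (List (Nat × Nat × Nat)) :=
  ([(16, 0, 3), (24, 2, 0), (48, 2, 2), (18, 0, 2), (47, 1, 1), (20, 0, 0)],
    [[(0, 0, 0), (4, 0, 0), (16, 0, 0), (20, 0, 0), (0, 1, 0), (1, 1, 0), (4, 1, 0), (5, 1, 0),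
    (8, 1, 0), (9, 1, 0), (0, 2, 0), (1, 2, 0), (8, 2, 0), (9, 2, 0), (16, 2, 0), (17, 2, 0),
    (24, 2, 0), (25, 2, 0)], [(0, 0, 1), (2, 0, 1), (4, 0, 1), (0, 1, 1), (1, 1, 1), (2, 1, 1),
    (3, 1, 1), (4, 1, 1), (5, 1, 1), (8, 1, 1), (9, 1, 1), (10, 1, 1), (11, 1, 1), (14, 1, 1),
    (15, 1, 1), (32, 1, 1), (33, 1, 1), (36, 1, 1), (37, 1, 1), (38, 1, 1), (39, 1, 1), (42, 1,
    1), (43, 1, 1), (44, 1, 1), (45, 1, 1), (46, 1, 1), (47, 1, 1), (0, 2, 1), (1, 2, 1), (8, 2,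
    1), (9, 2, 1), (32, 2, 1), (33, 2, 1)], [(0, 0, 2), (2, 0, 2), (16, 0, 2), (18, 0, 2), (0,
    1, 2), (1, 1, 2), (2, 1, 2), (3, 1, 2), (32, 1, 2), (33, 1, 2), (0, 2, 2), (1, 2, 2), (16,
    2, 2), (17, 2, 2), (32, 2, 2), (33, 2, 2), (48, 2, 2), (49, 2, 2)], [(0, 0, 3), (2, 0, 3),
    (4, 0, 3), (16, 0, 3), (18, 0, 3), (20, 0, 3), (0, 1, 3), (2, 1, 3), (4, 1, 3), (8, 1, 3),
    (10, 1, 3), (14, 1, 3), (32, 1, 3), (36, 1, 3), (38, 1, 3), (42, 1, 3), (44, 1, 3), (46, 1,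
    3), (0, 2, 3), (8, 2, 3), (16, 2, 3), (24, 2, 3), (32, 2, 3), (48, 2, 3)]])

def c5 : List Nat :=
  [0, 27, 19, 6, 1, 27, 19, 6, 27, 1, 9, 4, 18, 6, 6, 19, 6, 6, 1, 6, 31, 23, 6, 1, 1, 1, 31,
    4, 14, 14, 1, 23, 6, 6, 4, 4, 1, 7, 1, 4, 5, 1, 6, 1, 1, 1]

theorem imp5 : Impossible s5 :=
  impossible_of_check [] (by simp) s5 c5 (by decide +kernel)

def s6 : List (Nat × Nat × Nat) × List (List (Nat × Nat × Nat)) :=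
  ([(16, 2, 3), (24, 2, 0), (48, 2, 2), (18, 0, 2), (47, 1, 1), (20, 0, 0)],
    [[(0, 0, 0), (1, 0, 0), (4, 0, 0), (5, 0, 0), (16, 0, 0), (17, 0, 0), (20, 0, 0), (21, 0,
    0), (0, 1, 0), (1, 1, 0), (4, 1, 0), (5, 1, 0), (8, 1, 0), (9, 1, 0), (0, 2, 0), (8, 2, 0),
    (16, 2, 0), (24, 2, 0)], [(0, 0, 1), (1, 0, 1), (2, 0, 1), (3, 0, 1), (4, 0, 1), (5, 0, 1),
    (0, 1, 1), (1, 1, 1), (2, 1, 1), (3, 1, 1), (4, 1, 1), (5, 1, 1), (8, 1, 1), (9, 1, 1), (10,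
    1, 1), (11, 1, 1), (14, 1, 1), (15, 1, 1), (32, 1, 1), (33, 1, 1), (36, 1, 1), (37, 1, 1),
    (38, 1, 1), (39, 1, 1), (42, 1, 1), (43, 1, 1), (44, 1, 1), (45, 1, 1), (46, 1, 1), (47, 1,
    1), (0, 2, 1), (8, 2, 1), (32, 2, 1)], [(0, 0, 2), (1, 0, 2), (2, 0, 2), (3, 0, 2), (16, 0,
    2), (17, 0, 2), (18, 0, 2), (19, 0, 2), (0, 1, 2), (1, 1, 2), (2, 1, 2), (3, 1, 2), (32, 1,
    2), (33, 1, 2), (0, 2, 2), (16, 2, 2), (32, 2, 2), (48, 2, 2)], [(0, 0, 3), (2, 0, 3), (4,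
    0, 3), (16, 0, 3), (18, 0, 3), (20, 0, 3), (0, 1, 3), (2, 1, 3), (4, 1, 3), (8, 1, 3), (10,
    1, 3), (14, 1, 3), (32, 1, 3), (36, 1, 3), (38, 1, 3), (42, 1, 3), (44, 1, 3), (46, 1, 3),
    (0, 2, 3), (8, 2, 3), (16, 2, 3), (24, 2, 3), (32, 2, 3), (48, 2, 3)]])

def c6 : List Nat :=
  [0, 27, 1, 9, 4, 18, 6, 6, 19, 6, 6, 1, 6, 31, 4, 14, 14, 1, 23, 6, 6, 4, 5, 1, 4, 4, 1, 7,
    1, 31, 23, 6, 1, 1, 1, 6, 1, 1, 1, 27, 19, 6, 19, 15, 4, 1]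

theorem imp6 : Impossible s6 :=
  impossible_of_check [] (by simp) s6 c6 (by decide +kernel)

def s7 : List (Nat × Nat × Nat) × List (List (Nat × Nat × Nat)) :=
  ([(8, 1, 3), (4, 2, 2), (10, 1, 1), (5, 0, 0)],
    [[(0, 0, 0), (3, 0, 0), (4, 0, 0), (5, 0, 0), (6, 0, 0), (7, 0, 0), (0, 1, 0), (0, 2, 0),
    (4, 2, 0), (5, 2, 0)], [(0, 0, 1), (3, 0, 1), (0, 1, 1), (8, 1, 1), (10, 1, 1), (0, 2, 1),
    (8, 2, 1), (9, 2, 1)], [(0, 0, 2), (4, 0, 2), (5, 0, 2), (0, 1, 2), (8, 1, 2), (0, 2, 2),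
    (4, 2, 2), (5, 2, 2), (8, 2, 2), (9, 2, 2), (12, 2, 2), (13, 2, 2)], [(0, 0, 3), (4, 0, 3),
    (6, 0, 3), (0, 1, 3), (8, 1, 3), (10, 1, 3), (0, 2, 3), (4, 2, 3), (8, 2, 3), (12, 2, 3)]])

def c7 : List Nat :=
  [7, 8, 4, 7, 15, 9, 9, 8, 5, 6, 20, 4, 4, 5, 0, 20, 21, 6, 1, 30, 4, 4, 4]

theorem imp7 : Impossible s7 :=
  impossible_of_check [] (by simp) s7 c7 (by decide +kernel)

end Pool.Agent.Run7.h601.FiveFree
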