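import Pool.Agent.Run7.h601.FiveFree

/-!
A part of the certificate of the search of `Pool.Agent.Run7.h601.FiveFree`.
-/

set_option autoImplicit false

namespace Pool.Agent.Run7.h601.FiveFree

def s8 : List (Nat × Nat × Nat) × List (List (Nat × Nat × Nat)) :=
  ([(10, 1, 3), (5, 2, 2), (10, 1, 1), (5, 0, 0)],
    [[(0, 0, 0), (1, 0, 0), (2, 0, 0), (3, 0, 0), (4, 0, 0), (5, 0, 0), (6, 0, 0), (7, 0, 0),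
    (0, 1, 0), (2, 1, 0), (0, 2, 0), (1, 2, 0), (4, 2, 0), (5, 2, 0)], [(0, 0, 1), (1, 0, 1),
    (2, 0, 1), (3, 0, 1), (0, 1, 1), (2, 1, 1), (8, 1, 1), (10, 1, 1), (0, 2, 1), (1, 2, 1), (8,
    2, 1), (9, 2, 1)], [(0, 0, 2), (1, 0, 2), (4, 0, 2), (5, 0, 2), (0, 1, 2), (8, 1, 2), (0, 2,
    2), (1, 2, 2), (4, 2, 2), (5, 2, 2), (8, 2, 2), (9, 2, 2), (12, 2, 2), (13, 2, 2)], [(0, 0,
    3), (2, 0, 3), (4, 0, 3), (6, 0, 3), (0, 1, 3), (2, 1, 3), (8, 1, 3), (10, 1, 3), (0, 2, 3),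
    (4, 2, 3), (8, 2, 3), (12, 2, 3)]])

def c8 : List Nat :=
  [11, 0, 2, 10, 0, 10, 0, 0, 1, 9, 12, 13, 0, 14, 6, 6, 14, 22, 10, 6, 26, 1, 30, 1, 14, 10,
    14, 10, 0, 2, 16, 16, 3, 12, 13, 10, 6, 17, 5, 5, 6, 1, 1, 21, 21, 6, 5, 2, 0, 8, 2, 8, 2,
    2, 1, 9, 22, 13, 2, 12, 4, 4, 12, 1, 20, 8, 4, 24, 20, 12, 8, 12, 8, 1, 2, 0, 26, 26, 3, 22,
    4, 5, 13, 8, 4, 17, 5, 5, 4, 1, 1, 21, 21]

theorem imp8 : Impossible s8 :=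
  impossible_of_check [] (by simp) s8 c8 (by decide +kernel)

def s9 : List (Nat × Nat × Nat) × List (List (Nat × Nat × Nat)) :=
  ([(8, 2, 3), (4, 2, 2), (10, 1, 1), (5, 0, 0)],
    [[(0, 0, 0), (3, 0, 0), (4, 0, 0), (5, 0, 0), (6, 0, 0), (7, 0, 0), (0, 1, 0), (3, 1, 0),
    (0, 2, 0), (4, 2, 0)], [(0, 0, 1), (3, 0, 1), (0, 1, 1), (3, 1, 1), (8, 1, 1), (9, 1, 1),
    (10, 1, 1), (11, 1, 1), (0, 2, 1), (8, 2, 1)], [(0, 0, 2), (4, 0, 2), (5, 0, 2), (0, 1, 2),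
    (8, 1, 2), (9, 1, 2), (0, 2, 2), (4, 2, 2), (8, 2, 2), (12, 2, 2)], [(0, 0, 3), (4, 0, 3),
    (6, 0, 3), (0, 1, 3), (8, 1, 3), (10, 1, 3), (0, 2, 3), (4, 2, 3), (8, 2, 3), (12, 2, 3)]])

def c9 : List Nat :=
  [7, 8, 4, 7, 1, 3, 18, 6, 6, 15, 5, 4, 5, 6, 30, 5, 0, 6, 0, 0, 8, 34, 34]

theorem imp9 : Impossible s9 :=
  impossible_of_check [] (by simp) s9 c9 (by decide +kernel)

def s10 : List (Nat × Nat × Nat) × List (List (Nat × Nat × Nat)) :=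
  ([(12, 2, 3), (4, 2, 2), (11, 1, 1), (5, 0, 0)],
    [[(0, 0, 0), (1, 0, 0), (2, 0, 0), (3, 0, 0), (4, 0, 0), (5, 0, 0), (6, 0, 0), (7, 0, 0),
    (0, 1, 0), (1, 1, 0), (2, 1, 0), (3, 1, 0), (0, 2, 0), (4, 2, 0)], [(0, 0, 1), (1, 0, 1),
    (2, 0, 1), (3, 0, 1), (0, 1, 1), (1, 1, 1), (2, 1, 1), (3, 1, 1), (8, 1, 1), (9, 1, 1), (10,
    1, 1), (11, 1, 1), (0, 2, 1), (8, 2, 1)], [(0, 0, 2), (1, 0, 2), (4, 0, 2), (5, 0, 2), (0,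
    1, 2), (1, 1, 2), (8, 1, 2), (9, 1, 2), (0, 2, 2), (4, 2, 2), (8, 2, 2), (12, 2, 2)], [(0,
    0, 3), (2, 0, 3), (4, 0, 3), (6, 0, 3), (0, 1, 3), (2, 1, 3), (8, 1, 3), (10, 1, 3), (0, 2,
    3), (4, 2, 3), (8, 2, 3), (12, 2, 3)]])

def c10 : List Nat :=
  [2, 0, 5, 5, 4, 12, 26, 1, 1, 18, 4, 5, 1, 4, 7, 4, 1, 7, 1, 7, 1, 5, 5, 5, 11, 5, 16, 8, 7,
    1, 3, 1, 12, 4, 7, 7, 7, 4, 7, 7, 7, 7, 1, 27, 11, 7, 31, 15]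

theorem imp10 : Impossible s10 :=
  impossible_of_check [] (by simp) s10 c10 (by decide +kernel)

def s11 : List (Nat × Nat × Nat) × List (List (Nat × Nat × Nat)) :=
  ([(8, 1, 3), (12, 2, 2), (10, 1, 1), (7, 0, 0)],
    [[(0, 0, 0), (1, 0, 0), (2, 0, 0), (3, 0, 0), (4, 0, 0), (5, 0, 0), (6, 0, 0), (7, 0, 0),
    (0, 1, 0), (2, 1, 0), (0, 2, 0), (1, 2, 0), (4, 2, 0), (5, 2, 0)], [(0, 0, 1), (1, 0, 1),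
    (2, 0, 1), (3, 0, 1), (0, 1, 1), (2, 1, 1), (8, 1, 1), (10, 1, 1), (0, 2, 1), (1, 2, 1), (8,
    2, 1), (9, 2, 1)], [(0, 0, 2), (1, 0, 2), (4, 0, 2), (5, 0, 2), (0, 1, 2), (8, 1, 2), (0, 2,
    2), (1, 2, 2), (4, 2, 2), (5, 2, 2), (8, 2, 2), (9, 2, 2), (12, 2, 2), (13, 2, 2)], [(0, 0,
    3), (2, 0, 3), (4, 0, 3), (6, 0, 3), (0, 1, 3), (2, 1, 3), (8, 1, 3), (10, 1, 3), (0, 2, 3),
    (4, 2, 3), (8, 2, 3), (12, 2, 3)]])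

def c11 : List Nat :=
  [11, 5, 4, 14, 0, 1, 10, 5, 0, 9, 5, 6, 6, 6, 5, 6, 6, 6, 6, 0, 22, 10, 6, 26, 9, 2, 4, 4,
    6, 10, 19, 0, 0, 11, 6, 4, 0, 6, 5, 6, 0, 5, 0, 5, 0, 4, 4, 4]

theorem imp11 : Impossible s11 :=
  impossible_of_check [] (by simp) s11 c11 (by decide +kernel)

end Pool.Agent.Run7.h601.FiveFree
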