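import Pool.Agent.Run7.h601.FiveFree

/-!
A part of the certificate of the search of `Pool.Agent.Run7.h601.FiveFree`.
-/

set_option autoImplicit false

namespace Pool.Agent.Run7.h601.FiveFree

def s12 : List (Nat × Nat × Nat) × List (List (Nat × Nat × Nat)) :=
  ([(10, 1, 3), (13, 2, 2), (10, 1, 1), (7, 0, 0)],
    [[(0, 0, 0), (1, 0, 0), (2, 0, 0), (3, 0, 0), (4, 0, 0), (5, 0, 0), (6, 0, 0), (7, 0, 0),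
    (0, 1, 0), (2, 1, 0), (0, 2, 0), (1, 2, 0), (4, 2, 0), (5, 2, 0)], [(0, 0, 1), (1, 0, 1),
    (2, 0, 1), (3, 0, 1), (0, 1, 1), (2, 1, 1), (8, 1, 1), (10, 1, 1), (0, 2, 1), (1, 2, 1), (8,
    2, 1), (9, 2, 1)], [(0, 0, 2), (1, 0, 2), (4, 0, 2), (5, 0, 2), (0, 1, 2), (8, 1, 2), (0, 2,
    2), (1, 2, 2), (4, 2, 2), (5, 2, 2), (8, 2, 2), (9, 2, 2), (12, 2, 2), (13, 2, 2)], [(0, 0,
    3), (2, 0, 3), (4, 0, 3), (6, 0, 3), (0, 1, 3), (2, 1, 3), (8, 1, 3), (10, 1, 3), (0, 2, 3),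
    (4, 2, 3), (8, 2, 3), (12, 2, 3)]])

def c12 : List Nat :=
  [11, 5, 4, 4, 6, 6, 6, 4, 6, 6, 6, 6, 18, 10, 6, 22, 1, 4, 5, 2, 4, 4, 2, 6, 6, 6, 5, 4, 4,
    6, 6, 6, 4, 6, 6, 6, 6, 1, 18, 10, 6, 22, 6, 5, 0, 6, 6, 0, 4, 4, 4]

theorem imp12 : Impossible s12 :=
  impossible_of_check [] (by simp) s12 c12 (by decide +kernel)

def s13 : List (Nat × Nat × Nat) × List (List (Nat × Nat × Nat)) :=
  ([(8, 2, 3), (12, 2, 2), (10, 1, 1), (7, 0, 0)],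
    [[(0, 0, 0), (1, 0, 0), (2, 0, 0), (3, 0, 0), (4, 0, 0), (5, 0, 0), (6, 0, 0), (7, 0, 0),
    (0, 1, 0), (1, 1, 0), (2, 1, 0), (3, 1, 0), (0, 2, 0), (4, 2, 0)], [(0, 0, 1), (1, 0, 1),
    (2, 0, 1), (3, 0, 1), (0, 1, 1), (1, 1, 1), (2, 1, 1), (3, 1, 1), (8, 1, 1), (9, 1, 1), (10,
    1, 1), (11, 1, 1), (0, 2, 1), (8, 2, 1)], [(0, 0, 2), (1, 0, 2), (4, 0, 2), (5, 0, 2), (0,
    1, 2), (1, 1, 2), (8, 1, 2), (9, 1, 2), (0, 2, 2), (4, 2, 2), (8, 2, 2), (12, 2, 2)], [(0,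
    0, 3), (2, 0, 3), (4, 0, 3), (6, 0, 3), (0, 1, 3), (2, 1, 3), (8, 1, 3), (10, 1, 3), (0, 2,
    3), (4, 2, 3), (8, 2, 3), (12, 2, 3)]])

def c13 : List Nat :=
  [7, 6, 4, 13, 0, 2, 9, 6, 0, 9, 5, 6, 6, 6, 5, 6, 6, 6, 6, 0, 22, 10, 6, 26, 10, 1, 4, 4, 5,
    9, 23, 0, 0, 15, 5, 4, 0, 5, 6, 5, 0, 6, 0, 6, 0, 4, 4, 4]

theorem imp13 : Impossible s13 :=
  impossible_of_check [] (by simp) s13 c13 (by decide +kernel)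

def s14 : List (Nat × Nat × Nat) × List (List (Nat × Nat × Nat)) :=
  ([(12, 2, 3), (12, 2, 2), (11, 1, 1), (7, 0, 0)],
    [[(0, 0, 0), (1, 0, 0), (2, 0, 0), (3, 0, 0), (4, 0, 0), (5, 0, 0), (6, 0, 0), (7, 0, 0),
    (0, 1, 0), (1, 1, 0), (2, 1, 0), (3, 1, 0), (0, 2, 0), (4, 2, 0)], [(0, 0, 1), (1, 0, 1),
    (2, 0, 1), (3, 0, 1), (0, 1, 1), (1, 1, 1), (2, 1, 1), (3, 1, 1), (8, 1, 1), (9, 1, 1), (10,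
    1, 1), (11, 1, 1), (0, 2, 1), (8, 2, 1)], [(0, 0, 2), (1, 0, 2), (4, 0, 2), (5, 0, 2), (0,
    1, 2), (1, 1, 2), (8, 1, 2), (9, 1, 2), (0, 2, 2), (4, 2, 2), (8, 2, 2), (12, 2, 2)], [(0,
    0, 3), (2, 0, 3), (4, 0, 3), (6, 0, 3), (0, 1, 3), (2, 1, 3), (8, 1, 3), (10, 1, 3), (0, 2,
    3), (4, 2, 3), (8, 2, 3), (12, 2, 3)]])

def c14 : List Nat :=
  [7, 6, 4, 4, 5, 5, 5, 4, 5, 5, 5, 5, 17, 9, 5, 21, 2, 4, 6, 1, 4, 4, 1, 5, 5, 5, 6, 4, 4, 5,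
    5, 5, 4, 5, 5, 5, 5, 17, 9, 5, 21, 2, 5, 6, 0, 5, 5, 0, 4, 4, 4]

theorem imp14 : Impossible s14 :=
  impossible_of_check [] (by simp) s14 c14 (by decide +kernel)

end Pool.Agent.Run7.h601.FiveFree
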