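import Pool.Agent.Run7.h601.FiveFreeData0
import Pool.Agent.Run7.h601.FiveFreeData1
import Pool.Agent.Run7.h601.FiveFreeData2
import Pool.Agent.Run7.h601.FiveFreeData3

/-!
The top of the search tree of `Pool.Agent.Run7.h601.FiveFree`.
-/

set_option autoImplicit false

namespace Pool.Agent.Run7.h601.FiveFree

def known : List (List (Nat × Nat × Nat) × List (List (Nat × Nat × Nat))) :=
  [s0, s1, s2, s3, s4, s5, s6, s7, s8, s9, s10, s11, s12, s13, s14]

def ctop : List Nat :=
  [2, 10, 4, 1000, 3, 15, 6, 9, 15, 7, 5, 23, 1000, 1000, 4, 7, 23, 4, 5, 11, 7, 5, 23, 1000,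
    1000, 15, 1000, 2, 19, 5, 1, 19, 4, 0, 23, 1, 1, 0, 27, 5, 1, 27, 6, 2, 31, 1, 1, 1000, 0,
    11, 6, 2, 15, 1, 1, 11, 5, 1, 2, 15, 4, 0, 19, 1, 1, 15, 5, 1, 11, 1000, 1000, 1000, 1000,
    11, 1000, 1000, 1000, 1000]

theorem known_imp : ∀ s ∈ known, Impossible s := by
  intro s hs
  simp only [known, List.mem_cons, List.not_mem_nil, or_false] at hs
  rcases hs with rfl | rfl | rfl | rfl | rfl | rfl | rfl | rfl | rfl | rfl | rfl | rfl | rfl | rfl | rfl
  · exact imp0
  · exact imp1
  · exact imp2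
  · exact imp3
  · exact imp4
  · exact imp5
  · exact imp6
  · exact imp7
  · exact imp8
  · exact imp9
  · exact imp10
  · exact imp11
  · exact imp12
  · exact imp13
  · exact imp14

theorem root_imp : Impossible (rows2, L2) :=
  impossible_of_check known known_imp (rows2, L2) ctop (by decide +kernel)

end Pool.Agent.Run7.h601.FiveFree
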