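import Mathlib

/-!
Path systems in graphs, consistency, metrizability.
-/

namespace Pool.Agent.Run7.h601

universe u

variable {V : Type u}

/-- A path system in `G`: for every pair of vertices `u, v` exactly one path `path u v` with these ends.
The pairs are unordered, so the path of `v, u` is the path of `u, v` run backwards. -/
structure PathSystem (G : SimpleGraph V) where
  path : ∀ u v : V, G.Walk u v
  isPath : ∀ u v : V, (path u v).IsPath
  path_symm : ∀ u v : V, path v u = (path u v).reverse

/-- `P` is consistent: every subpath (from `x` to `y`) of a path of the system is the path of the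
system with the ends `x, y`. -/
def PathSystem.Consistent {G : SimpleGraph V} (P : PathSystem G) : Prop :=
  ∀ (u v x y : V) (p : G.Walk u x) (q : G.Walk x y) (r : G.Walk y v),
    P.path u v = p.append (q.append r) → q = P.path x y

/-- the sum of the weights of the edges of a walk -/
noncomputable def walkWeight {G : SimpleGraph V} (w : Sym2 V → ℝ) {u v : V} (p : G.Walk u v) : ℝ :=
  (p.edges.map w).sum

/-- the weight `w` induces `P`: no path is shorter than the path of the system with the same ends -/
def PathSystem.InducedBy {G : SimpleGraph V} (P : PathSystem G) (w : Sym2 V → ℝ) : Prop :=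
  ∀ (u v : V) (q : G.Walk u v), q.IsPath → walkWeight w (P.path u v) ≤ walkWeight w q

/-- every consistent path system is induced by a positive weight of the edges -/
def Metrizable (G : SimpleGraph V) : Prop :=
  ∀ P : PathSystem G, P.Consistent →
    ∃ w : Sym2 V → ℝ, (∀ e ∈ G.edgeSet, 0 < w e) ∧ P.InducedBy w

theorem split_support {G : SimpleGraph V} {x : V} (A B : List V) :
    ∀ {u v : V} (p : G.Walk u v), p.support = A ++ x :: B →
      ∃ (q : G.Walk u x) (r : G.Walk x v), p = q.append r ∧ q.support = A ++ [x] ∧
        r.support = x :: B := by
  induction A with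
  | nil =>
    intro u v p hp
    have h1 := p.cons_tail_support.symm
    rw [hp] at h1
    simp only [List.nil_append, List.cons.injEq] at h1
    obtain ⟨rfl, -⟩ := h1
    exact ⟨SimpleGraph.Walk.nil, p, rfl, rfl, hp⟩
  | cons a A ih =>
    intro u v p hp
    cases p with
    | nil =>
      exfalso
      have : (A ++ x :: B : List V) = [] := by
        have h2 : ([u] : List V) = a :: (A ++ x :: B) := by simpa using hp
        exact (List.cons.inj h2).2.symm
      simp at this
    | cons h p' =>
      have h3 : u :: p'.support = a :: (A ++ x :: B) := by simpa using hp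
      obtain ⟨rfl, h4⟩ := List.cons.inj h3
      obtain ⟨q, r, hq, hqs, hrs⟩ := ih p' h4
      exact ⟨SimpleGraph.Walk.cons h q, r, by rw [hq]; rfl, by simp [hqs], hrs⟩

theorem PathSystem.Consistent.list {G : SimpleGraph V} {P : PathSystem G} (hP : P.Consistent)
    {u v x y : V} {A m C : List V} (h : (P.path u v).support = A ++ x :: (m ++ y :: C)) :
    (P.path x y).support = x :: (m ++ [y]) := by
  obtain ⟨q, r, h1, -, h3⟩ := split_support A (m ++ y :: C) (P.path u v) h
  obtain ⟨q', r', h4, h5, -⟩ := split_support (x := y) (x :: m) C r (by simpa using h3)
  have h6 := hP u v x y q q' r' (by rw [h1, h4])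
  rw [← h6, h5]; simp

end Pool.Agent.Run7.h601
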