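import Pool.Agent.Run7.h601.Theta333Data

/-!
Kernel computations for the theta graph with three arcs of length three.
-/

set_option maxRecDepth 100000

namespace Pool.Agent.Run7.h601.Theta333

def srch (Ms : List (ℕ × ℕ)) : List (Fin 8 × Fin 8 × ℕ × List (ℕ × ℕ)) → ℕ → ℕ → Bool
  | [], inc, forb =>
      Ms.any (fun M => Nat.beq (Nat.land inc M.2) inc) &&
        Nat.beq (Nat.lor forb inc) 79228162514264337593543950335
  | e :: ps, inc, forb =>
      if Nat.beq (Nat.land inc e.2.2.1) 0 then
        e.2.2.2.all (fun c => !(Nat.beq (Nat.land c.1 forb) 0) ||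
          srch Ms ps (Nat.lor inc c.1) (Nat.lor forb c.2))
      else srch Ms ps inc forb

theorem srch_ok : srch WM PS 0 0 = true := by decide +kernel

/-- weight of a path from the positions of its edges -/
def pw (W : ℕ) (sh : List ℕ) : ℕ := (sh.map (fun s => Nat.land (Nat.shiftRight W s) 7)).sum

/-- all simple paths, both orientations and the trivial ones -/
def allP : List (List (Fin 8)) :=
  CS.map (fun c => c.l) ++ (CS.map (fun c => c.l.reverse) ++ (List.finRange 8).map (fun a => [a]))

def consec : List (Fin 8) → List ℕ
  | a :: b :: l => edgeSh a b :: consec (b :: l)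
  | _ => []

theorem closed_ok : allP.all (fun l => (List.finRange 8).all (fun a =>
    l.contains a || !(Nat.blt (edgeSh a (l.headD 0)) 27) || allP.contains (a :: l))) = true := by
  decide +kernel

theorem orient_ok : allP.all (fun l => !(Nat.blt (l.headD 0).val (l.getLastD 0).val) ||
    CS.any (fun c => c.l == l)) = true := by
  decide +kernel

theorem ends_ok : CS.all (fun c => (c.l.headD 0 == c.u) && (c.l.getLastD 0 == c.v) &&
    Nat.blt c.u.val c.v.val && (c.sh == consec c.l)) = true := by
  decide +kernel

theorem index_ok : CS.all (fun c => CS.all (fun c' => !(Nat.beq c.i c'.i) || (c.l == c'.l))) = true := by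
  decide +kernel

theorem range_ok : (List.range 96).all (fun i => CS.any (fun c => Nat.beq c.i i)) = true := by
  decide +kernel

theorem bound_ok : CS.all (fun c => Nat.blt c.i 96 && Nat.blt c.sm (2 ^ 96) &&
    Nat.blt c.cm (2 ^ 96)) = true := by
  decide +kernel

/-- `m` or its reverse is a contiguous part of `l` -/
def inf (m l : List (Fin 8)) : Bool := decide (m <:+: l) || decide (m.reverse <:+: l)

theorem sub_ok : CS.all (fun c => CS.all (fun c' => !(c.sm.testBit c'.i) || inf c'.l c.l)) = true := by
  decide +kernel

theorem conf_ok : CS.all (fun c => CS.all (fun c' => !(c.cm.testBit c'.i) ||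
    (c.l.contains c'.u && c.l.contains c'.v && !(inf c'.l c.l)))) = true := by
  decide +kernel

theorem pairs_ok : PS.all (fun e => CS.all (fun c => !(c.u == e.1) || !(c.v == e.2.1) ||
    e.2.2.2.contains (c.sm, c.cm))) = true := by
  decide +kernel

theorem pairs_lt : PS.all (fun e => Nat.blt e.1.val e.2.1.val) = true := by
  decide +kernel

theorem groups_ok : CS.all (fun c => CS.all (fun c' => !(c.u == c'.u) || !(c.v == c'.v) ||
    GR.any (fun g => g.contains (c.i, c.sh) && g.contains (c'.i, c'.sh)))) = true := by
  decide +kernel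

theorem weights_ok : WM.all (fun M => GR.all (fun g => g.all (fun c => !(M.2.testBit c.1) ||
    g.all (fun c' => Nat.ble (pw M.1 c.2) (pw M.1 c'.2))))) = true := by
  decide +kernel

theorem pos_ok : WM.all (fun M => (List.finRange 8).all (fun a => (List.finRange 8).all (fun b =>
    Nat.blt 0 (Nat.land (Nat.shiftRight M.1 (edgeSh a b)) 7)))) = true := by
  decide +kernel

theorem edgeSh_symm : ∀ a b : Fin 8, edgeSh a b = edgeSh b a := by decide +kernel

end Pool.Agent.Run7.h601.Theta333
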