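import Pool.Agent.Run7.h601.Theta333Check
import Pool.Agent.Run7.h601.PathSystems

/-!
The theta graph with three arcs of length three is metrizable.
-/

namespace Pool.Agent.Run7.h601.Theta333

open SimpleGraph

/-- two vertices `0, 1` joined by the three arcs `0,2,3,1`, `0,4,5,1` and `0,6,7,1` -/
def theta333 : SimpleGraph (Fin 8) := SimpleGraph.fromEdgeSet
  {s(0, 2), s(2, 3), s(3, 1), s(0, 4), s(4, 5), s(5, 1), s(0, 6), s(6, 7), s(7, 1)}

theorem adj_iff (a b : Fin 8) : theta333.Adj a b ↔ edgeSh a b < 27 := by
  simp only [theta333, SimpleGraph.fromEdgeSet_adj, Set.mem_insert_iff, Set.mem_singleton_iff]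
  revert a b; decide +kernel

theorem mem_allP : ∀ l : List (Fin 8), l ≠ [] → l.Nodup → l.IsChain theta333.Adj → l ∈ allP := by
  intro l
  induction l with
  | nil => intro h; exact absurd rfl h
  | cons a l ih =>
    intro _ hn hc
    cases l with
    | nil =>
      unfold allP
      refine List.mem_append_right _ (List.mem_append_right _ ?_)
      exact List.mem_map.2 ⟨a, List.mem_finRange a, rfl⟩
    | cons b l =>
      have hn' := List.nodup_cons.1 hn
      have hc' := List.isChain_cons_cons.1 hc
      have h1 := ih (by simp) hn'.2 hc'.2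
      have h2 := List.all_eq_true.1 (List.all_eq_true.1 closed_ok _ h1) a (List.mem_finRange a)
      simp only [Bool.or_eq_true, Bool.not_eq_true', List.headD_cons] at h2
      rcases h2 with (h2 | h2) | h2
      · exact absurd (List.contains_iff_mem.1 h2) hn'.1
      · exfalso
        have h3 := (adj_iff a b).1 hc'.1
        have h4 : Nat.blt (edgeSh a b) 27 = true := by
          simpa [Nat.blt_eq] using h3
        rw [h4] at h2; exact absurd h2 (by simp)
      · exact List.contains_iff_mem.1 h2

/-- the vertices of the path of a system -/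
def L (P : PathSystem theta333) (u v : Fin 8) : List (Fin 8) := (P.path u v).support

theorem walk_mem {u v : Fin 8} (p : theta333.Walk u v) (hp : p.IsPath) : p.support ∈ allP :=
  mem_allP _ p.support_ne_nil hp.support_nodup p.isChain_adj_support

theorem walk_head {u v : Fin 8} (p : theta333.Walk u v) : p.support.headD 0 = u := by
  rw [← p.cons_tail_support]; rfl

theorem walk_last {u v : Fin 8} (p : theta333.Walk u v) : p.support.getLastD 0 = v := by
  have h := p.getLast_support
  rw [List.getLastD_eq_getLast?, List.getLast?_eq_getLast_of_ne_nil p.support_ne_nil, h]; rfl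

theorem walk_cand {u v : Fin 8} (huv : u < v) (p : theta333.Walk u v) (hp : p.IsPath) :
    ∃ c ∈ CS, c.l = p.support ∧ c.u = u ∧ c.v = v ∧ c.sh = consec c.l := by
  have h1 := List.all_eq_true.1 orient_ok _ (walk_mem p hp)
  rw [walk_head, walk_last] at h1
  have h2 : Nat.blt u.val v.val = true := by simpa [Nat.blt_eq] using huv
  rw [h2] at h1
  simp only [Bool.not_true, Bool.false_or, List.any_eq_true] at h1
  obtain ⟨c, hc, h3⟩ := h1
  have h3' : c.l = p.support := by simpa using h3
  have h4 := List.all_eq_true.1 ends_ok c hc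
  simp only [Bool.and_eq_true, beq_iff_eq] at h4
  obtain ⟨⟨⟨h5, h6⟩, -⟩, h7⟩ := h4
  refine ⟨c, hc, h3', ?_, ?_, h7⟩
  · rw [← h5, h3', walk_head]
  · rw [← h6, h3', walk_last]

/-- the path number `i` belongs to the system -/
def S (P : PathSystem theta333) (i : ℕ) : Prop := ∃ c ∈ CS, c.i = i ∧ L P c.u c.v = c.l

theorem L_symm (P : PathSystem theta333) (u v : Fin 8) : L P v u = (L P u v).reverse := by
  unfold L; rw [P.path_symm u v, Walk.support_reverse]

/-- both ends of a path of the system on another path of the system -/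
theorem inf_of {P : PathSystem theta333} (hP : P.Consistent) {c c' : Cand}
    (h : L P c.u c.v = c.l) (h' : L P c'.u c'.v = c'.l) (hu : c'.u ∈ c.l) (hv : c'.v ∈ c.l)
    (hne : c'.u ≠ c'.v) : inf c'.l c.l = true := by
  obtain ⟨A, B, hAB⟩ := List.append_of_mem hu
  rw [hAB] at hv
  have hS : (P.path c.u c.v).support = A ++ c'.u :: B := by rw [← hAB, ← h]; rfl
  unfold inf
  rw [Bool.or_eq_true, decide_eq_true_eq, decide_eq_true_eq]
  rcases List.mem_append.1 hv with hv | hv
  · -- the end `v` comes first
    right
    obtain ⟨A1, A2, hA⟩ := List.append_of_mem hv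
    have h1 : (P.path c.u c.v).support = A1 ++ c'.v :: (A2 ++ c'.u :: B) := by
      rw [hS, hA]; simp
    have h2 := hP.list h1
    have h3 : L P c'.v c'.u = c'.v :: (A2 ++ [c'.u]) := h2
    rw [L_symm, h'] at h3
    rw [h3, hAB, hA]
    exact ⟨A1, B, by simp⟩
  · left
    rcases List.mem_cons.1 hv with hv | hv
    · exact absurd hv.symm hne
    · obtain ⟨B1, B2, hB⟩ := List.append_of_mem hv
      have h1 : (P.path c.u c.v).support = A ++ c'.u :: (B1 ++ c'.v :: B2) := by
        rw [hS, hB]
      have h2 := hP.list h1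
      have h3 : L P c'.u c'.v = c'.u :: (B1 ++ [c'.v]) := h2
      rw [h'] at h3
      rw [h3, hAB, hB]
      exact ⟨A, B2, by simp⟩

theorem cand_ne {c : Cand} (hc : c ∈ CS) : c.u ≠ c.v := by
  have h4 := List.all_eq_true.1 ends_ok c hc
  simp only [Bool.and_eq_true, beq_iff_eq] at h4
  obtain ⟨⟨⟨-, -⟩, h5⟩, -⟩ := h4
  have h6 : c.u.val < c.v.val := by simpa [Nat.blt_eq] using h5
  intro h; rw [h] at h6; exact absurd h6 (lt_irrefl _)

theorem cand_head {c : Cand} (hc : c ∈ CS) : c.l.headD 0 = c.u ∧ c.l.getLastD 0 = c.v := by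
  have h4 := List.all_eq_true.1 ends_ok c hc
  simp only [Bool.and_eq_true, beq_iff_eq] at h4
  exact h4.1.1

/-- an infix with both orders of its ends determined -/
theorem S_of_inf {P : PathSystem theta333} (hP : P.Consistent) {c c' : Cand} (_hc : c ∈ CS)
    (hc' : c' ∈ CS) (h : L P c.u c.v = c.l) (hi : inf c'.l c.l = true) :
    L P c'.u c'.v = c'.l := by
  unfold inf at hi
  rw [Bool.or_eq_true, decide_eq_true_eq, decide_eq_true_eq] at hi
  obtain ⟨hh, hl⟩ := cand_head hc'
  have hne := cand_ne hc'
  -- write the list of `c'` as head, middle, last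
  have hform : ∃ m, c'.l = c'.u :: (m ++ [c'.v]) := by
    rcases hl' : c'.l with _ | ⟨a, t⟩
    · rw [hl'] at hh hl; simp at hh hl; exact absurd (hh.symm.trans hl) hne
    · rw [hl'] at hh hl
      simp only [List.headD_cons] at hh
      subst hh
      rcases List.eq_nil_or_concat t with ht | ⟨t', b, ht⟩
      · subst ht; simp at hl; exact absurd hl hne
      · subst ht
        have : b = c'.v := by
          rw [List.concat_eq_append, ← List.cons_append, List.getLastD_concat] at hl
          exact hl
        exact ⟨t', by simp [this]⟩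
  obtain ⟨m, hm⟩ := hform
  rcases hi with ⟨A, C, h1⟩ | ⟨A, C, h1⟩
  · have h2 : (P.path c.u c.v).support = A ++ c'.u :: (m ++ c'.v :: C) := by
      have : (P.path c.u c.v).support = c.l := h
      rw [this, ← h1, hm]; simp
    have h3 := hP.list h2
    rw [hm]; exact h3
  · have h2 : (P.path c.u c.v).support = A ++ c'.v :: (m.reverse ++ c'.u :: C) := by
      have : (P.path c.u c.v).support = c.l := h
      rw [this, ← h1, hm]; simp
    have h3 : L P c'.v c'.u = c'.v :: (m.reverse ++ [c'.u]) := hP.list h2
    rw [L_symm, h3, hm]; simp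

theorem testBit_all {x i : ℕ} (hx : x < 2 ^ 96) (h : x.testBit i = true) : i < 96 := by
  by_contra hi
  have : x < 2 ^ i := lt_of_lt_of_le hx (Nat.pow_le_pow_right (by norm_num) (by omega))
  rw [Nat.testBit_lt_two_pow this] at h
  exact absurd h (by simp)

theorem exists_cand {i : ℕ} (hi : i < 96) : ∃ c ∈ CS, c.i = i := by
  have h := List.all_eq_true.1 range_ok i (List.mem_range.2 hi)
  obtain ⟨c, hc, h2⟩ := List.any_eq_true.1 h
  exact ⟨c, hc, Nat.eq_of_beq_eq_true h2⟩

theorem S_sub {P : PathSystem theta333} (hP : P.Consistent) {c : Cand} (hc : c ∈ CS)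
    (h : L P c.u c.v = c.l) (i : ℕ) (hi : c.sm.testBit i = true) : S P i := by
  have hb := List.all_eq_true.1 bound_ok c hc
  simp only [Bool.and_eq_true, Nat.blt_eq] at hb
  obtain ⟨c', hc', rfl⟩ := exists_cand (testBit_all hb.1.2 hi)
  have h1 := List.all_eq_true.1 (List.all_eq_true.1 sub_ok c hc) c' hc'
  rw [hi] at h1
  exact ⟨c', hc', rfl, S_of_inf hP hc hc' h (by simpa using h1)⟩

theorem S_conf {P : PathSystem theta333} (hP : P.Consistent) {c : Cand} (hc : c ∈ CS)
    (h : L P c.u c.v = c.l) (i : ℕ) (hi : c.cm.testBit i = true) : ¬ S P i := by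
  rintro ⟨c', hc', rfl, h'⟩
  have h1 := List.all_eq_true.1 (List.all_eq_true.1 conf_ok c hc) c' hc'
  rw [hi] at h1
  simp only [Bool.not_true, Bool.false_or, Bool.and_eq_true, Bool.not_eq_true'] at h1
  have h2 := inf_of hP h h' (List.contains_iff_mem.1 h1.1.1) (List.contains_iff_mem.1 h1.1.2)
    (cand_ne hc')
  rw [h2] at h1
  exact absurd h1.2 (by simp)

theorem srch_sound (T : ℕ → Prop) (hT : ∀ i, T i → i < 96) (Ms : List (ℕ × ℕ)) :
    ∀ (ps : List (Fin 8 × Fin 8 × ℕ × List (ℕ × ℕ))) (inc forb : ℕ),
      (∀ e ∈ ps, ∃ c ∈ e.2.2.2, (∀ i, c.1.testBit i = true → T i) ∧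
        (∀ i, c.2.testBit i = true → ¬ T i)) →
      (∀ i, inc.testBit i = true → T i) → (∀ i, forb.testBit i = true → ¬ T i) →
      srch Ms ps inc forb = true → ∃ M ∈ Ms, ∀ i, T i → M.2.testBit i = true := by
  intro ps
  induction ps with
  | nil =>
    intro inc forb _ h1 h2 h
    unfold srch at h
    rw [Bool.and_eq_true] at h
    obtain ⟨M, hM, hM2⟩ := List.any_eq_true.1 h.1
    have hM3 : inc &&& M.2 = inc := Nat.eq_of_beq_eq_true hM2
    have hA : forb ||| inc = 79228162514264337593543950335 := Nat.eq_of_beq_eq_true h.2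
    refine ⟨M, hM, fun i hi => ?_⟩
    have h96 := hT i hi
    have h3 : (forb ||| inc).testBit i = true := by
      rw [hA, show (79228162514264337593543950335 : ℕ) = 2 ^ 96 - 1 by norm_num,
        Nat.testBit_two_pow_sub_one]
      simpa using h96
    rw [Nat.testBit_or, Bool.or_eq_true] at h3
    have h4 : inc.testBit i = true := h3.resolve_left (fun h5 => h2 i h5 hi)
    rw [← hM3, Nat.testBit_and, Bool.and_eq_true] at h4
    exact h4.2
  | cons e ps ih =>
    intro inc forb hps h1 h2 h
    unfold srch at h
    split_ifs at h with hif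
    · obtain ⟨c, hc, hc1, hc2⟩ := hps e List.mem_cons_self
      have h3 := List.all_eq_true.1 h c hc
      rw [Bool.or_eq_true] at h3
      have h4 : Nat.land c.1 forb = 0 := by
        apply Nat.eq_of_testBit_eq
        intro i
        rw [Nat.zero_testBit]
        by_contra h5
        have h6 : (c.1 &&& forb).testBit i = true := by
          rw [Bool.not_eq_false] at h5; exact h5
        rw [Nat.testBit_and, Bool.and_eq_true] at h6
        exact h2 i h6.2 (hc1 i h6.1)
      rw [h4] at h3
      have h5 : srch Ms ps (Nat.lor inc c.1) (Nat.lor forb c.2) = true := by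
        rcases h3 with h3 | h3
        · exact absurd h3 (by decide)
        · exact h3
      refine ih _ _ (fun e' he' => hps e' (List.mem_cons_of_mem _ he')) ?_ ?_ h5
      · intro i hi
        have h6 : (inc ||| c.1).testBit i = true := hi
        rw [Nat.testBit_or, Bool.or_eq_true] at h6
        exact h6.elim (h1 i) (hc1 i)
      · intro i hi
        have h6 : (forb ||| c.2).testBit i = true := hi
        rw [Nat.testBit_or, Bool.or_eq_true] at h6
        exact h6.elim (h2 i) (hc2 i)
    · exact ih _ _ (fun e' he' => hps e' (List.mem_cons_of_mem _ he')) h1 h2 h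

/-- the weight of an edge given by the digits of `W` -/
noncomputable def wt (W : ℕ) : Sym2 (Fin 8) → ℝ :=
  Sym2.lift ⟨fun a b => ((Nat.land (Nat.shiftRight W (edgeSh a b)) 7 : ℕ) : ℝ),
    fun a b => by simp only [edgeSh_symm a b]⟩

theorem weight_eq (W : ℕ) : ∀ {u v : Fin 8} (p : theta333.Walk u v),
    walkWeight (wt W) p = ((pw W (consec p.support) : ℕ) : ℝ) := by
  intro u v p
  induction p with
  | nil => simp [walkWeight, consec, pw]
  | @cons u v w h p ih =>
    have h1 : walkWeight (wt W) (Walk.cons h p) = wt W s(u, v) + walkWeight (wt W) p := by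
      simp [walkWeight]
    rw [h1, ih]
    have h2 : consec (Walk.cons h p).support = edgeSh u v :: consec p.support := by
      rw [Walk.support_cons]
      rcases hs : p.support with _ | ⟨a, t⟩
      · exact absurd hs p.support_ne_nil
      · have : a = v := by
          have := walk_head p; rw [hs] at this; simpa using this
        subst this; rfl
    rw [h2]
    simp only [pw, List.map_cons, List.sum_cons, Nat.cast_add]
    rfl

theorem weight_reverse {V : Type*} {G : SimpleGraph V} (w : Sym2 V → ℝ) {u v : V}
    (p : G.Walk u v) : walkWeight w p.reverse = walkWeight w p := by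
  unfold walkWeight
  rw [Walk.edges_reverse, List.map_reverse, List.sum_reverse]

theorem metrizable : Metrizable theta333 := by
  intro P hP
  obtain ⟨M, hM, hMS⟩ := srch_sound (S P)
    (by
      rintro i ⟨c, hc, rfl, -⟩
      have hb := List.all_eq_true.1 bound_ok c hc
      simp only [Bool.and_eq_true, Nat.blt_eq] at hb
      exact hb.1.1) WM PS 0 0
    (by
      intro e he
      have hlt : e.1 < e.2.1 := by
        have := List.all_eq_true.1 pairs_lt e he
        simpa [Nat.blt_eq] using this
      obtain ⟨c, hc, hcl, hcu, hcv, -⟩ := walk_cand hlt (P.path e.1 e.2.1) (P.isPath _ _)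
      have hL : L P c.u c.v = c.l := by rw [hcu, hcv, hcl]; rfl
      have h1 := List.all_eq_true.1 (List.all_eq_true.1 pairs_ok e he) c hc
      rw [hcu, hcv] at h1
      simp only [beq_self_eq_true, Bool.not_true, Bool.false_or] at h1
      exact ⟨(c.sm, c.cm), List.contains_iff_mem.1 h1, S_sub hP hc hL, S_conf hP hc hL⟩)
    (by intro i hi; simp at hi) (by intro i hi; simp at hi) srch_ok
  refine ⟨wt M.1, ?_, ?_⟩
  · intro e _
    induction e with
    | _ a b =>
      have h1 := List.all_eq_true.1 (List.all_eq_true.1 (List.all_eq_true.1 pos_ok M hM) a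
        (List.mem_finRange a)) b (List.mem_finRange b)
      have h2 : 0 < Nat.land (Nat.shiftRight M.1 (edgeSh a b)) 7 := by
        simpa [Nat.blt_eq] using h1
      have h3 : wt M.1 s(a, b) = ((Nat.land (Nat.shiftRight M.1 (edgeSh a b)) 7 : ℕ) : ℝ) := rfl
      rw [h3]; exact_mod_cast h2
  · -- ordered ends
    have key : ∀ (u v : Fin 8), u < v → ∀ q : theta333.Walk u v, q.IsPath →
        walkWeight (wt M.1) (P.path u v) ≤ walkWeight (wt M.1) q := by
      intro u v huv q hq
      obtain ⟨c, hc, hcl, hcu, hcv, hcs⟩ := walk_cand huv (P.path u v) (P.isPath _ _)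
      obtain ⟨c', hc', hcl', hcu', hcv', hcs'⟩ := walk_cand huv q hq
      have hL : L P c.u c.v = c.l := by rw [hcu, hcv, hcl]; rfl
      have hbit := hMS c.i ⟨c, hc, rfl, hL⟩
      have hg := List.all_eq_true.1 (List.all_eq_true.1 groups_ok c hc) c' hc'
      rw [hcu, hcv, hcu', hcv'] at hg
      simp only [beq_self_eq_true, Bool.not_true, Bool.false_or, List.any_eq_true,
        Bool.and_eq_true] at hg
      obtain ⟨g, hgm, hg1, hg2⟩ := hg
      have h1 := List.all_eq_true.1 (List.all_eq_true.1 (List.all_eq_true.1 weights_ok M hM) g hgm)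
        _ (List.contains_iff_mem.1 hg1)
      simp only [hbit, Bool.not_true, Bool.false_or] at h1
      have h2 := List.all_eq_true.1 h1 _ (List.contains_iff_mem.1 hg2)
      have h3 : pw M.1 c.sh ≤ pw M.1 c'.sh := Nat.le_of_ble_eq_true h2
      rw [weight_eq, weight_eq, ← hcl, ← hcl', ← hcs, ← hcs']
      exact_mod_cast h3
    intro u v q hq
    rcases lt_trichotomy u v with h | h | h
    · exact key u v h q hq
    · subst h
      have h1 : P.path u u = Walk.nil := by
        have := P.isPath u u
        simpa using this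
      rw [h1]
      have h2 : walkWeight (wt M.1) (Walk.nil : theta333.Walk u u) = 0 := by simp [walkWeight]
      rw [h2, weight_eq]
      exact Nat.cast_nonneg _
    · have h1 := key v u h q.reverse hq.reverse
      rw [weight_reverse] at h1
      rw [P.path_symm v u, weight_reverse]
      exact h1

end Pool.Agent.Run7.h601.Theta333
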